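import Pool.Agent.Run7.h336.CA8

/-! # Parity of the generator -/

set_option autoImplicit false
set_option linter.unusedSectionVars false
set_option maxHeartbeats 2000000

open Complex Filter Topology Set MeasureTheory
open scoped ComplexConjugate

namespace Pool.Agent.Y23.G.CA

/-- the reflection `x ↦ f(-x)` -/
def ng (f : ℝ → ℂ) (x : ℝ) : ℂ := f (-x)

lemma TT_ng (f : ℝ → ℂ) (w : ℂ) : TT (ng f) w = TT f (-w) := by
  unfold TT ng
  have h := integral_neg_eq_self (fun x : ℝ => f (-x) * cexp (w * x)) volume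
  rw [← h]
  refine integral_congr_ae (Eventually.of_forall fun x => ?_)
  simp only [neg_neg]
  congr 2
  push_cast
  ring

lemma Fa_ng {a : ℝ} {f : ℝ → ℂ} (hf : Fa a f) : Fa a (ng f) :=
  ⟨hf.1.comp_measurePreserving (Measure.measurePreserving_neg volume), fun x hx => hf.2 (-x) (by rwa [abs_neg])⟩

lemma Hd_ng {a : ℝ} {f : ℝ → ℂ} (hf : Hd a f) : Hd a (ng f) := by
  refine ⟨Fa_ng hf.1, ?_⟩
  have h1 := hf.2.comp_neg
  refine h1.congr (Eventually.of_forall fun v => ?_)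
  simp only
  rw [TT_ng, Lg_neg]
  congr 3
  push_cast
  ring_nf

variable [K : Win]

lemma NH_ng (f : ℝ → ℂ) : NH (ng f) = NH f := by
  unfold NH
  rw [← integral_indicator wi_meas, ← integral_indicator wi_meas,
    ← integral_neg_eq_self (fun t => wi.indicator (fun t : ℝ => ‖TT f (t * I)‖ ^ 2) t) volume]
  refine integral_congr_ae (Eventually.of_forall fun t => ?_)
  simp only
  have h1 : -t ∈ wi (K := K) ↔ t ∈ wi (K := K) := by rw [mem_wi, mem_wi, abs_neg]
  by_cases ht : t ∈ wi (K := K)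
  · rw [indicator_of_mem ht, indicator_of_mem (h1.2 ht), TT_ng]
    congr 3
    push_cast
    ring
  · rw [indicator_of_notMem ht, indicator_of_notMem fun h => ht (h1.1 h)]

variable [DZ : ZD]

/-- the symmetry of the zeros -/
def Sym (DZ : ZD) : Prop := ∀ s ∈ DZ.Zs, 1 - s ∈ DZ.Zs ∧ DZ.mul (1 - s) = DZ.mul s

/-- the reflection of the zeros -/
noncomputable def ngZ (h : Sym DZ) : Zt ≃ Zt where
  toFun ρ := ⟨1 - ρ, (h ρ ρ.2).1⟩
  invFun ρ := ⟨1 - ρ, (h ρ ρ.2).1⟩
  left_inv ρ := by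
    apply Subtype.ext
    simp
  right_inv ρ := by
    apply Subtype.ext
    simp

lemma QQ_ng (h : Sym DZ) (f : ℝ → ℂ) : QQ (ng f) = QQ f := by
  unfold QQ
  rw [← (ngZ h).tsum_eq (fun ρ : Zt => (mu ρ : ℝ) * (GG f f ((ρ : ℂ) - 1 / 2)).re)]
  refine tsum_congr fun ρ => ?_
  have e1 : ((ngZ h ρ : Zt) : ℂ) = 1 - ρ := rfl
  have e2 : mu ((ngZ h ρ : Zt) : ℂ) = mu ρ := (h ρ ρ.2).2
  rw [e2]
  congr 2
  unfold GG
  rw [TT_ng, TT_ng, e1]
  have e3 : -((ρ : ℂ) - 1 / 2) = 1 - ρ - 1 / 2 := by ring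
  have e4 : -(-conj ((ρ : ℂ) - 1 / 2)) = -conj (1 - (ρ : ℂ) - 1 / 2) := by
    rw [← e3, map_neg]
  rw [e3, e4]

variable [EC : ZC]

lemma KK.ng {a : ℝ} (h : Sym DZ) {f : ℝ → ℂ} (hf : KK a f) : KK a (ng f) := by
  refine ⟨Hd_ng hf.1, ?_⟩
  have := hf.2
  unfold bq at this ⊢
  rw [QQ_ng h, NH_ng, this]

/-- **the generator is even or odd** -/
theorem parity (hs : Sym DZ) {a : ℝ} (ha : 0 < a) {e : ℝ → ℂ} {N : ℕ} {w1 : ℂ} (h : GData a e N w1) :
    (∀ w, TT e (-w) = TT e w) ∨ ∀ w, TT e (-w) = -TT e w := by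
  obtain ⟨p, _, hp⟩ := h.all ha (h.mem.ng hs)
  have h1 : ∀ w, TT e (-w) = p.eval w * TT e w := fun w => by rw [← TT_ng, hp]
  have h2 : ∀ w, TT e w = (p.comp (-Polynomial.X)).eval w * TT e (-w) := by
    intro w
    have h3 := h1 (-w)
    rw [neg_neg] at h3
    rw [h3]
    congr 1
    rw [Polynomial.eval_comp, Polynomial.eval_neg, Polynomial.eval_X]
  have h3 := poly_one (r := p.comp (-Polynomial.X) * p) (differentiable_TT h.mem.1.1) h.nz (fun w => by
    rw [Polynomial.eval_mul, mul_assoc, ← h1, ← h2])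
  obtain ⟨c, hc, hc0⟩ := poly_const h3
  have h4 : ∀ w, TT e (-w) = c * TT e w := fun w => by rw [h1, hc, Polynomial.eval_C]
  have h5 : c * c = 1 := by
    have h6 := h4 (-w1)
    rw [neg_neg, h4 w1, ← mul_assoc] at h6
    have h7 : (c * c - 1) * TT e w1 = 0 := by linear_combination -h6
    rcases mul_eq_zero.1 h7 with h8 | h8
    · linear_combination h8
    · exact absurd h8 h.nz
  rcases mul_self_eq_one_iff.1 h5 with h6 | h6
  · left
    intro w
    rw [h4, h6, one_mul]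
  · right
    intro w
    rw [h4, h6, neg_one_mul]

end Pool.Agent.Y23.G.CA
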