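import Pool.Agent.Run7.h114.CA.P6a

/-! # Limits of families of even entire functions of genus zero in `w ^ 2` -/

set_option autoImplicit false

open Complex Filter Topology Set

namespace Pool.Agent.Run7.h336.CAL

/-- the product -/
noncomputable def Pr (F : Finset ℂ) (ζ : ℂ → ℂ) (w : ℂ) : ℂ := ∏ p ∈ F, (1 - w ^ 2 / (ζ p) ^ 2)

lemma prod_exp_bound {F : Finset ℂ} {ζ : ℂ → ℂ} {w : ℂ} {R ε : ℝ} (hR : ‖w‖ ≤ R)
    (h : ∑ p ∈ F, 1 / ‖ζ p‖ ^ 2 ≤ ε) : ‖Pr F ζ w‖ ≤ Real.exp (ε * R ^ 2) ∧ ‖Pr F ζ w - 1‖ ≤ Real.exp (ε * R ^ 2) - 1 := by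
  have hR0 : 0 ≤ R := (norm_nonneg _).trans hR
  have h1 : ‖Pr F ζ w - 1‖ ≤ Real.exp (∑ p ∈ F, ‖-(w ^ 2 / (ζ p) ^ 2)‖) - 1 := by
    have := Finset.norm_prod_one_add_sub_one_le F (fun p => -(w ^ 2 / (ζ p) ^ 2))
    unfold Pr
    simpa only [sub_eq_add_neg] using this
  have h2 : ∑ p ∈ F, ‖-(w ^ 2 / (ζ p) ^ 2)‖ ≤ ε * R ^ 2 := by
    have h3 : ∀ p ∈ F, ‖-(w ^ 2 / (ζ p) ^ 2)‖ ≤ R ^ 2 * (1 / ‖ζ p‖ ^ 2) := by
      intro p _
      rw [norm_neg, norm_div, norm_pow, norm_pow, mul_one_div]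
      exact div_le_div_of_nonneg_right (pow_le_pow_left₀ (norm_nonneg _) hR 2) (by positivity)
    refine (Finset.sum_le_sum h3).trans ?_
    rw [← Finset.mul_sum, mul_comm ε]
    exact mul_le_mul_of_nonneg_left h (by positivity)
  have h3 := h1.trans (sub_le_sub_right (Real.exp_le_exp.2 h2) 1)
  refine ⟨?_, h3⟩
  have h4 : ‖Pr F ζ w‖ ≤ ‖Pr F ζ w - 1‖ + 1 := by
    have := norm_add_le (Pr F ζ w - 1) 1
    rwa [sub_add_cancel, norm_one] at this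
  linarith

/-- the relative estimate -/
lemma relative {E : ℂ → ℂ} {A : ℝ} (hE : Differentiable ℂ E) (hev : ∀ w, E (-w) = E w) (h0 : E 0 ≠ 0)
    (hb : ∀ w, ‖E w‖ ≤ Real.exp (A * (1 + ‖w‖) ^ (3/2 : ℝ))) (hs : ∀ w, E w = 0 → w.re = 0 ∧ deriv E w ≠ 0)
    {T ε : ℝ} (hε : ∀ S : Finset ℂ, (∀ z ∈ S, E z = 0 ∧ T < ‖z‖) → ∑ z ∈ S, 1 / ‖z‖ ^ 2 ≤ ε)
    {F : Finset ℂ} {ζ : ℂ → ℂ} (hζ0 : ∀ p ∈ F, E (ζ p) = 0 ∧ 0 < (ζ p).im)
    (hinj : ∀ p ∈ F, ∀ p' ∈ F, ζ p = ζ p' → p = p') (hall : ∀ z, E z = 0 → 0 < z.im → ‖z‖ ≤ T → ∃ p ∈ F, z = ζ p)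
    {w : ℂ} {R : ℝ} (hR : ‖w‖ ≤ R) (hsmall : Real.exp (ε * R ^ 2) - 1 ≤ 1 / 10) :
    ‖E w / E 0 - Pr F ζ w‖ ≤ 3 * (Real.exp (ε * R ^ 2) - 1) * ‖Pr F ζ w‖ := by
  classical
  have hR0 : 0 ≤ R := (norm_nonneg _).trans hR
  have hε0 : 0 ≤ ε := by
    have := hε ∅ (fun z hz => absurd hz (Finset.notMem_empty z))
    simpa using this
  set η : ℝ := Real.exp (ε * R ^ 2) - 1 with hη
  have hη0 : 0 ≤ η := by
    have := Real.add_one_le_exp (ε * R ^ 2)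
    have : 0 ≤ ε * R ^ 2 := by positivity
    rw [hη]; linarith
  set Z : Finset ℂ := (F.image ζ).filter fun z => ‖z‖ ≤ T with hZ
  set S : Finset ℂ := (F.image ζ).filter fun z => ¬ ‖z‖ ≤ T with hS
  have hprod : Pr F ζ w = (∏ z ∈ Z, (1 - w ^ 2 / z ^ 2)) * ∏ z ∈ S, (1 - w ^ 2 / z ^ 2) := by
    rw [hZ, hS, Finset.prod_filter_mul_prod_filter_not, Finset.prod_image hinj]
    rfl
  obtain ⟨h, h1, h2⟩ := h114.CA.LE hE hev h0 hb hs (T := T) (ε := ε) Z (fun z => by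
    rw [hZ, Finset.mem_filter, Finset.mem_image]
    constructor
    · rintro ⟨⟨p, hp, rfl⟩, hT⟩
      exact ⟨(hζ0 p hp).1, (hζ0 p hp).2, hT⟩
    · rintro ⟨hz, him, hT⟩
      obtain ⟨p, hp, rfl⟩ := hall z hz him hT
      exact ⟨⟨p, hp, rfl⟩, hT⟩) (fun S' hS' => hε S' fun z hz => ⟨(hS' z hz).1, (hS' z hz).2.2⟩) w
  have h3 : ‖h - 1‖ ≤ η := by
    refine h2.trans (sub_le_sub_right (Real.exp_le_exp.2 ?_) 1)
    exact mul_le_mul_of_nonneg_left (pow_le_pow_left₀ (norm_nonneg _) hR 2) hε0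
  set k : ℂ := ∏ z ∈ S, (1 - w ^ 2 / z ^ 2) with hk
  have h4 : ‖k - 1‖ ≤ η := by
    have h5 : ∑ z ∈ S, 1 / ‖(id z : ℂ)‖ ^ 2 ≤ ε := by
      refine hε S fun z hz => ?_
      rw [hS, Finset.mem_filter, Finset.mem_image] at hz
      obtain ⟨⟨p, hp, rfl⟩, hT⟩ := hz
      exact ⟨(hζ0 p hp).1, not_le.1 hT⟩
    exact (prod_exp_bound (ζ := id) hR h5).2
  set Q : ℂ := ∏ z ∈ Z, (1 - w ^ 2 / z ^ 2) with hQ
  rw [h1, hprod, ← mul_sub, norm_mul, norm_mul]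
  have h5 : ‖h - k‖ ≤ 2 * η := by
    have : h - k = (h - 1) - (k - 1) := by ring
    rw [this]
    refine (norm_sub_le _ _).trans (by linarith)
  have h6 : 9 / 10 ≤ ‖k‖ := by
    have h7 := norm_sub_norm_le (1 : ℂ) (1 - k)
    have e1 : (1 : ℂ) - (1 - k) = k := by ring
    rw [e1, norm_one, norm_sub_rev] at h7
    linarith
  calc ‖Q‖ * ‖h - k‖ ≤ ‖Q‖ * (3 * η * ‖k‖) := by
        refine mul_le_mul_of_nonneg_left ?_ (norm_nonneg _)
        nlinarith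
    _ = _ := by ring

/-- finite products with near factors -/
lemma prod_near {ι : Type*} (F : Finset ι) (a b : ι → ℂ) {M η : ℝ} (hM : 1 ≤ M) (hη : 0 ≤ η) (ha : ∀ i ∈ F, ‖a i‖ ≤ M)
    (hb : ∀ i ∈ F, ‖b i‖ ≤ M) (hab : ∀ i ∈ F, ‖a i - b i‖ ≤ η) :
    ‖∏ i ∈ F, b i‖ ≤ M ^ F.card ∧ ‖∏ i ∈ F, a i - ∏ i ∈ F, b i‖ ≤ F.card * M ^ F.card * η := by
  classical
  induction F using Finset.induction_on with
  | empty => simp
  | insert i F hi ih =>
    obtain ⟨ih1, ih2⟩ := ih (fun j hj => ha j (Finset.mem_insert_of_mem hj)) (fun j hj => hb j (Finset.mem_insert_of_mem hj))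
      (fun j hj => hab j (Finset.mem_insert_of_mem hj))
    have hai := ha i (Finset.mem_insert_self _ _)
    have hbi := hb i (Finset.mem_insert_self _ _)
    have habi := hab i (Finset.mem_insert_self _ _)
    have hM0 : 0 ≤ M := by linarith
    have hMn : 1 ≤ M ^ F.card := one_le_pow₀ hM
    rw [Finset.prod_insert hi, Finset.prod_insert hi, Finset.card_insert_of_notMem hi, pow_succ]
    constructor
    · rw [norm_mul, mul_comm (M ^ F.card)]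
      exact mul_le_mul hbi ih1 (norm_nonneg _) hM0
    · have e1 : a i * ∏ j ∈ F, a j - b i * ∏ j ∈ F, b j =
          a i * (∏ j ∈ F, a j - ∏ j ∈ F, b j) + (a i - b i) * ∏ j ∈ F, b j := by ring
      rw [e1]
      refine (norm_add_le _ _).trans ?_
      rw [norm_mul, norm_mul]
      have h1 : ‖a i‖ * ‖∏ j ∈ F, a j - ∏ j ∈ F, b j‖ ≤ M * (F.card * M ^ F.card * η) :=
        mul_le_mul hai ih2 (norm_nonneg _) hM0
      have h2 : ‖a i - b i‖ * ‖∏ j ∈ F, b j‖ ≤ η * M ^ F.card := mul_le_mul habi ih1 (norm_nonneg _) hη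
      have h3 : η * M ^ F.card ≤ M * M ^ F.card * η := by
        have : 0 ≤ M ^ F.card * η := by positivity
        nlinarith
      push_cast
      calc _ ≤ M * (F.card * M ^ F.card * η) + η * M ^ F.card := add_le_add h1 h2
        _ ≤ M * (F.card * M ^ F.card * η) + M * M ^ F.card * η := by linarith
        _ = _ := by ring

/-- near points give near products, uniformly on discs -/
lemma Pr_near (F : Finset ℂ) (hF : ∀ p ∈ F, p ≠ 0) (R : ℝ) {ε : ℝ} (hε : 0 < ε) :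
    ∃ δ : ℝ, 0 < δ ∧ ∀ ζ : ℂ → ℂ, (∀ p ∈ F, ‖ζ p - p‖ < δ) → ∀ w : ℂ, ‖w‖ ≤ R →
      ‖Pr F ζ w - Pr F id w‖ ≤ ε := by
  classical
  obtain ⟨m, hm0, hm⟩ : ∃ m : ℝ, 1 ≤ m ∧ ∀ p ∈ F, 1 + R ^ 2 * ‖1 / p ^ 2‖ + R ^ 2 ≤ m := by
    rcases F.eq_empty_or_nonempty with rfl | hne
    · exact ⟨1, le_rfl, fun p hp => absurd hp (Finset.notMem_empty p)⟩
    · obtain ⟨x, hx, hmax⟩ := F.exists_max_image (fun p => 1 + R ^ 2 * ‖1 / p ^ 2‖ + R ^ 2) hne
      refine ⟨1 + R ^ 2 * ‖1 / x ^ 2‖ + R ^ 2, ?_, hmax⟩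
      have : 0 ≤ R ^ 2 * ‖1 / x ^ 2‖ := by positivity
      have : 0 ≤ R ^ 2 := sq_nonneg R
      linarith
  set n : ℕ := F.card with hn
  set C : ℝ := (n : ℝ) * m ^ n * (R ^ 2) + 1 with hC
  have hC0 : 0 < C := by positivity
  set η : ℝ := min 1 (ε / C) with hη
  have hη0 : 0 < η := lt_min one_pos (by positivity)
  have hη1 : η ≤ 1 := min_le_left _ _
  have h1 : ∀ p : ℂ, ∃ δ : ℝ, 0 < δ ∧ (p ∈ F → ∀ z, ‖z - p‖ < δ → ‖1 / z ^ 2 - 1 / p ^ 2‖ ≤ η) := by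
    intro p
    by_cases hp : p ∈ F
    · have hp0 := hF p hp
      have hc : ContinuousAt (fun z : ℂ => 1 / z ^ 2) p :=
        continuousAt_const.div (by fun_prop) (pow_ne_zero 2 hp0)
      rw [Metric.continuousAt_iff] at hc
      obtain ⟨δ, hδ, h⟩ := hc η hη0
      refine ⟨δ, hδ, fun _ z hz => ?_⟩
      have := h (x := z) (by rw [dist_eq_norm]; exact hz)
      rw [dist_eq_norm] at this
      exact this.le
    · exact ⟨1, one_pos, fun h => absurd h hp⟩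
  choose D hD0 hD using h1
  obtain ⟨δ, hδ0, hδ⟩ : ∃ δ : ℝ, 0 < δ ∧ ∀ p ∈ F, δ ≤ D p := by
    rcases F.eq_empty_or_nonempty with rfl | hne
    · exact ⟨1, one_pos, fun p hp => absurd hp (Finset.notMem_empty p)⟩
    · obtain ⟨x, hx, hmin⟩ := F.exists_min_image D hne
      exact ⟨D x, hD0 x, hmin⟩
  refine ⟨δ, hδ0, fun ζ hζ w hw => ?_⟩
  have hR0 : 0 ≤ R := (norm_nonneg _).trans hw
  have hw2 : ‖w ^ 2‖ ≤ R ^ 2 := by rw [norm_pow]; exact pow_le_pow_left₀ (norm_nonneg _) hw 2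
  have hdiff : ∀ p ∈ F, ‖(1 - w ^ 2 / (ζ p) ^ 2) - (1 - w ^ 2 / (id p) ^ 2)‖ ≤ R ^ 2 * η := by
    intro p hp
    have h2 := hD p hp (ζ p) ((hζ p hp).trans_le (hδ p hp))
    have e1 : (1 - w ^ 2 / (ζ p) ^ 2) - (1 - w ^ 2 / (id p) ^ 2) = -(w ^ 2 * (1 / (ζ p) ^ 2 - 1 / p ^ 2)) := by
      simp only [id]
      ring
    rw [e1, norm_neg, norm_mul]
    exact mul_le_mul hw2 h2 (norm_nonneg _) (by positivity)
  have hb : ∀ p ∈ F, ‖(1 - w ^ 2 / (id p) ^ 2)‖ ≤ m := by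
    intro p hp
    refine le_trans ?_ (hm p hp)
    refine (norm_sub_le _ _).trans ?_
    rw [norm_one]
    have e1 : w ^ 2 / (id p) ^ 2 = w ^ 2 * (1 / p ^ 2) := by simp only [id]; ring
    rw [e1, norm_mul]
    have h3 : ‖w ^ 2‖ * ‖1 / p ^ 2‖ ≤ R ^ 2 * ‖1 / p ^ 2‖ := mul_le_mul_of_nonneg_right hw2 (norm_nonneg _)
    have : 0 ≤ R ^ 2 := sq_nonneg R
    linarith
  have ha : ∀ p ∈ F, ‖(1 - w ^ 2 / (ζ p) ^ 2)‖ ≤ m := by
    intro p hp
    refine le_trans ?_ (hm p hp)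
    have h2 := hD p hp (ζ p) ((hζ p hp).trans_le (hδ p hp))
    have h4 : ‖1 / (ζ p) ^ 2‖ ≤ ‖1 / p ^ 2‖ + 1 := by
      have := norm_add_le (1 / (ζ p) ^ 2 - 1 / p ^ 2) (1 / p ^ 2)
      rw [sub_add_cancel] at this
      linarith
    refine (norm_sub_le _ _).trans ?_
    rw [norm_one]
    have e1 : w ^ 2 / (ζ p) ^ 2 = w ^ 2 * (1 / (ζ p) ^ 2) := by ring
    rw [e1, norm_mul]
    have h3 : ‖w ^ 2‖ * ‖1 / (ζ p) ^ 2‖ ≤ R ^ 2 * (‖1 / p ^ 2‖ + 1) := mul_le_mul hw2 h4 (norm_nonneg _) (by positivity)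
    linarith
  have h5 := (prod_near F (fun p => 1 - w ^ 2 / (ζ p) ^ 2) (fun p => 1 - w ^ 2 / (id p) ^ 2) hm0
    (by positivity : 0 ≤ R ^ 2 * η) ha hb hdiff).2
  refine (show ‖Pr F ζ w - Pr F id w‖ ≤ _ from h5).trans ?_
  have h6 : (n : ℝ) * m ^ n * (R ^ 2 * η) ≤ C * η := by
    rw [hC]; nlinarith
  refine h6.trans ?_
  have h7 : η ≤ ε / C := min_le_right _ _
  calc C * η ≤ C * (ε / C) := mul_le_mul_of_nonneg_left h7 hC0.le
    _ = ε := mul_div_cancel₀ _ hC0.ne'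

theorem limitT {E : ℝ → ℂ → ℂ} {a1 : ℝ} {P : Set ℂ} {eps : ℝ → ℝ} (hE : ∀ a, a1 ≤ a → Differentiable ℂ (E a))
    (hev : ∀ a, a1 ≤ a → ∀ w, E a (-w) = E a w) (h0 : ∀ a, a1 ≤ a → E a 0 ≠ 0)
    (hb : ∀ a, a1 ≤ a → ∃ A : ℝ, ∀ w, ‖E a w‖ ≤ Real.exp (A * (1 + ‖w‖) ^ (3/2 : ℝ)))
    (hs : ∀ a, a1 ≤ a → ∀ w, E a w = 0 → w.re = 0 ∧ deriv (E a) w ≠ 0) (heps : Tendsto eps atTop (𝓝 0))
    (htail : ∀ a, a1 ≤ a → ∀ T, 0 ≤ T → ∀ S : Finset ℂ, (∀ z ∈ S, E a z = 0 ∧ T < ‖z‖) → ∑ z ∈ S, 1 / ‖z‖ ^ 2 ≤ eps T)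
    (hP : ∀ p ∈ P, p.re = 0 ∧ 0 < p.im) (hfin : ∀ T, {p | p ∈ P ∧ ‖p‖ ≤ T}.Finite)
    (hmatch : ∀ T, 0 ≤ T → ∃ δ0 : ℝ, 0 < δ0 ∧ ∀ δ, 0 < δ → δ ≤ δ0 → ∃ a0, ∀ a, a0 ≤ a → ∃ ζ : ℂ → ℂ,
      (∀ p ∈ P, ‖p‖ ≤ T → E a (ζ p) = 0 ∧ ‖ζ p - p‖ < δ) ∧
      (∀ p ∈ P, ∀ p' ∈ P, ‖p‖ ≤ T → ‖p'‖ ≤ T → ζ p = ζ p' → p = p') ∧
      ∀ z, E a z = 0 → 0 < z.im → ‖z‖ ≤ T → ∃ p ∈ P, ‖p‖ ≤ T ∧ z = ζ p) :
    ∃ G : ℂ → ℂ, Differentiable ℂ G ∧ G 0 = 1 ∧ (∀ w, G w = 0 ↔ (w ∈ P ∨ -w ∈ P)) ∧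
      (∀ w, G w = 0 → deriv G w ≠ 0) ∧ TendstoLocallyUniformly (fun a w => E a w / E a 0) G atTop ∧
      ∀ w, ∀ ε > 0, ∃ T0, ∀ T ≥ T0, ∀ Z : Finset ℂ, (∀ z, z ∈ Z ↔ z ∈ P ∧ ‖z‖ ≤ T) →
        ‖G w - ∏ z ∈ Z, (1 - w ^ 2 / z ^ 2)‖ < ε := by
  classical
  set F : ℝ → Finset ℂ := fun T => (hfin T).toFinset with hF
  have hmemF : ∀ T z, z ∈ F T ↔ z ∈ P ∧ ‖z‖ ≤ T := fun T z => by
    simp only [hF, Set.Finite.mem_toFinset, Set.mem_setOf_eq]
  have hP0 : ∀ p ∈ P, p ≠ 0 := fun p hp h => by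
    have := (hP p hp).2
    rw [h, Complex.zero_im] at this
    exact lt_irrefl _ this
  have heps0 : ∀ T, 0 ≤ T → 0 ≤ eps T := fun T hT => by
    have := htail a1 le_rfl T hT ∅ (fun z hz => absurd hz (Finset.notMem_empty z))
    simpa using this
  -- the combined estimate
  have key : ∀ (T R ε : ℝ), 0 ≤ T → 0 < ε → Real.exp (eps T * R ^ 2) - 1 ≤ 1 / 10 → ∃ a0, ∀ a, a0 ≤ a → ∀ w, ‖w‖ ≤ R →
      ‖E a w / E a 0 - Pr (F T) id w‖ ≤ 3 * (Real.exp (eps T * R ^ 2) - 1) * ‖Pr (F T) id w‖ + ε := by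
    intro T R ε hT hε hsm
    obtain ⟨δ1, hδ1, hnear⟩ := Pr_near (F T) (fun p hp => hP0 p ((hmemF T p).1 hp).1) R (show 0 < ε / 2 by positivity)
    obtain ⟨δ0, hδ0, hm⟩ := hmatch T hT
    obtain ⟨δ2, hδ2, hδ2'⟩ : ∃ δ : ℝ, 0 < δ ∧ ∀ p ∈ F T, δ ≤ p.im := by
      rcases (F T).eq_empty_or_nonempty with he | hne
      · rw [he]
        exact ⟨1, one_pos, fun p hp => absurd hp (Finset.notMem_empty p)⟩
      · obtain ⟨x, hx, hmin⟩ := (F T).exists_min_image Complex.im hne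
        exact ⟨x.im, (hP x ((hmemF T x).1 hx).1).2, hmin⟩
    set δ := min δ0 (min δ1 δ2) with hδ
    have hδpos : 0 < δ := lt_min hδ0 (lt_min hδ1 hδ2)
    obtain ⟨a0, ha0⟩ := hm δ hδpos (min_le_left _ _)
    refine ⟨max a0 a1, fun a ha w hw => ?_⟩
    have haa0 : a0 ≤ a := (le_max_left _ _).trans ha
    have haa1 : a1 ≤ a := (le_max_right _ _).trans ha
    obtain ⟨ζ, z1, z2, z3⟩ := ha0 a haa0
    obtain ⟨A, hA⟩ := hb a haa1
    have hrel := relative (hE a haa1) (hev a haa1) (h0 a haa1) hA (hs a haa1) (htail a haa1 T hT) (F := F T) (ζ := ζ)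
      (fun p hp => by
        obtain ⟨hp1, hp2⟩ := (hmemF T p).1 hp
        obtain ⟨h1, h2⟩ := z1 p hp1 hp2
        refine ⟨h1, ?_⟩
        have h3 := Complex.abs_im_le_norm (ζ p - p)
        rw [Complex.sub_im] at h3
        have h4 := (abs_le.1 h3).1
        have h5 := hδ2' p hp
        have h6 : δ ≤ δ2 := (min_le_right _ _).trans (min_le_right _ _)
        linarith)
      (fun p hp p' hp' => z2 p ((hmemF T p).1 hp).1 p' ((hmemF T p').1 hp').1 ((hmemF T p).1 hp).2 ((hmemF T p').1 hp').2)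
      (fun z hz him hzT => by
        obtain ⟨p, hp, hpT, rfl⟩ := z3 z hz him hzT
        exact ⟨p, (hmemF T p).2 ⟨hp, hpT⟩, rfl⟩) hw hsm
    have hn := hnear ζ (fun p hp => by
      obtain ⟨hp1, hp2⟩ := (hmemF T p).1 hp
      exact (z1 p hp1 hp2).2.trans_le ((min_le_right _ _).trans (min_le_left _ _))) w hw
    set η := Real.exp (eps T * R ^ 2) - 1 with hη
    have hη0 : 0 ≤ η := by
      have h1 := Real.add_one_le_exp (eps T * R ^ 2)
      have h2 : 0 ≤ eps T * R ^ 2 := mul_nonneg (heps0 T hT) (sq_nonneg R)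
      rw [hη]; linarith
    have h7 : ‖Pr (F T) ζ w‖ ≤ ‖Pr (F T) id w‖ + ε / 2 := by
      have := norm_sub_norm_le (Pr (F T) ζ w) (Pr (F T) id w)
      linarith
    have h8 : ‖E a w / E a 0 - Pr (F T) id w‖ ≤ ‖E a w / E a 0 - Pr (F T) ζ w‖ + ‖Pr (F T) ζ w - Pr (F T) id w‖ := by
      have : E a w / E a 0 - Pr (F T) id w = (E a w / E a 0 - Pr (F T) ζ w) + (Pr (F T) ζ w - Pr (F T) id w) := by ring
      rw [this]
      exact norm_add_le _ _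
    have h9 : 3 * η * ‖Pr (F T) ζ w‖ ≤ 3 * η * (‖Pr (F T) id w‖ + ε / 2) := mul_le_mul_of_nonneg_left h7 (by positivity)
    nlinarith
  -- a bound for the products
  have hsum : ∀ T, 0 ≤ T → ∑ p ∈ F T, 1 / ‖(id p : ℂ)‖ ^ 2 ≤ eps 0 := by
    intro T hT
    refine le_of_forall_pos_le_add fun ε hε => ?_
    obtain ⟨δ0, hδ0, hm⟩ := hmatch T hT
    have h1 : ∀ p : ℂ, ∃ δ : ℝ, 0 < δ ∧ (p ∈ F T → ∀ z, ‖z - p‖ < δ → 1 / ‖p‖ ^ 2 ≤ 1 / ‖z‖ ^ 2 + ε / ((F T).card + 1)) := by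
      intro p
      by_cases hp : p ∈ F T
      · have hp0 := hP0 p ((hmemF T p).1 hp).1
        have hc : ContinuousAt (fun z : ℂ => 1 / ‖z‖ ^ 2) p :=
          continuousAt_const.div (by fun_prop) (pow_ne_zero 2 (norm_ne_zero_iff.2 hp0))
        rw [Metric.continuousAt_iff] at hc
        obtain ⟨δ, hδ, h⟩ := hc (ε / ((F T).card + 1)) (by positivity)
        refine ⟨δ, hδ, fun _ z hz => ?_⟩
        have := h (x := z) (by rw [dist_eq_norm]; exact hz)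
        rw [Real.dist_eq] at this
        have := (abs_lt.1 this).1
        linarith
      · exact ⟨1, one_pos, fun h => absurd h hp⟩
    choose D hD0 hD using h1
    obtain ⟨δ1, hδ1, hδ1'⟩ : ∃ δ : ℝ, 0 < δ ∧ ∀ p ∈ F T, δ ≤ D p := by
      rcases (F T).eq_empty_or_nonempty with he | hne
      · rw [he]
        exact ⟨1, one_pos, fun p hp => absurd hp (Finset.notMem_empty p)⟩
      · obtain ⟨x, hx, hmin⟩ := (F T).exists_min_image D hne
        exact ⟨D x, hD0 x, hmin⟩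
    obtain ⟨a0, ha0⟩ := hm (min δ0 δ1) (lt_min hδ0 hδ1) (min_le_left _ _)
    obtain ⟨ζ, z1, z2, _⟩ := ha0 (max a0 a1) (le_max_left _ _)
    have h2 := htail (max a0 a1) (le_max_right _ _) 0 le_rfl ((F T).image ζ) (fun z hz => by
      rw [Finset.mem_image] at hz
      obtain ⟨p, hp, rfl⟩ := hz
      obtain ⟨hp1, hp2⟩ := (hmemF T p).1 hp
      refine ⟨(z1 p hp1 hp2).1, norm_pos_iff.2 fun h => ?_⟩
      have h3 := (z1 p hp1 hp2).1
      rw [h] at h3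
      exact h0 _ (le_max_right _ _) h3)
    rw [Finset.sum_image (fun p hp p' hp' h => z2 p ((hmemF T p).1 hp).1 p' ((hmemF T p').1 hp').1 ((hmemF T p).1 hp).2
      ((hmemF T p').1 hp').2 h)] at h2
    have h3 : ∀ p ∈ F T, 1 / ‖(id p : ℂ)‖ ^ 2 ≤ 1 / ‖ζ p‖ ^ 2 + ε / ((F T).card + 1) := by
      intro p hp
      obtain ⟨hp1, hp2⟩ := (hmemF T p).1 hp
      exact hD p hp (ζ p) ((z1 p hp1 hp2).2.trans_le ((min_le_right _ _).trans (hδ1' p hp)))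
    have h4 := Finset.sum_le_sum h3
    rw [Finset.sum_add_distrib, Finset.sum_const, nsmul_eq_mul] at h4
    have h5 : ((F T).card : ℝ) * (ε / ((F T).card + 1)) ≤ ε := by
      rw [mul_div_assoc', div_le_iff₀ (by positivity)]
      nlinarith
    linarith
  have hPb : ∀ (T R : ℝ), 0 ≤ T → ∀ w, ‖w‖ ≤ R → ‖Pr (F T) id w‖ ≤ Real.exp (eps 0 * R ^ 2) :=
    fun T R hT w hw => (prod_exp_bound hw (hsum T hT)).1
  -- the smallness of the tail
  have htl : ∀ (R ε : ℝ), 0 < ε → ∃ T0 : ℝ, 0 ≤ T0 ∧ ∀ T, T0 ≤ T → Real.exp (eps T * R ^ 2) - 1 ≤ ε := by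
    intro R ε hε
    have h1 : Tendsto (fun T => Real.exp (eps T * R ^ 2) - 1) atTop (𝓝 0) := by
      have h2 := ((Real.continuous_exp.tendsto _).comp (heps.mul_const (R ^ 2))).sub_const 1
      simpa [Function.comp_def] using h2
    obtain ⟨T0, hT0⟩ := (h1.eventually (gt_mem_nhds hε)).exists_forall_of_atTop
    exact ⟨max T0 0, le_max_right _ _, fun T hT => (hT0 T ((le_max_left _ _).trans hT)).le⟩
  -- uniform estimate
  have main : ∀ (R ε : ℝ), 0 < ε → ∃ T0 : ℝ, 0 ≤ T0 ∧ ∀ T, T0 ≤ T → ∃ a0, ∀ a, a0 ≤ a → ∀ w, ‖w‖ ≤ R →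
      ‖E a w / E a 0 - Pr (F T) id w‖ ≤ ε := by
    intro R ε hε
    set B := Real.exp (eps 0 * R ^ 2) with hB
    have hB0 : 0 < B := Real.exp_pos _
    obtain ⟨T0, hT0, hT1⟩ := htl R (min (1 / 10) (ε / (6 * B))) (lt_min (by norm_num) (by positivity))
    refine ⟨T0, hT0, fun T hT => ?_⟩
    have hTn : 0 ≤ T := hT0.trans hT
    have h1 := hT1 T hT
    obtain ⟨a0, ha0⟩ := key T R (ε / 2) hTn (by positivity) (h1.trans (min_le_left _ _))
    refine ⟨a0, fun a ha w hw => (ha0 a ha w hw).trans ?_⟩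
    have h2 := hPb T R hTn w hw
    have h3 := h1.trans (min_le_right _ _)
    have hη0 : 0 ≤ Real.exp (eps T * R ^ 2) - 1 := by
      have h1 := Real.add_one_le_exp (eps T * R ^ 2)
      have h2 : 0 ≤ eps T * R ^ 2 := mul_nonneg (heps0 T hTn) (sq_nonneg R)
      linarith
    have h4 : 3 * (Real.exp (eps T * R ^ 2) - 1) * ‖Pr (F T) id w‖ ≤ 3 * (ε / (6 * B)) * B :=
      mul_le_mul (mul_le_mul_of_nonneg_left h3 (by norm_num)) h2 (norm_nonneg _) (by positivity)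
    have h5 : 3 * (ε / (6 * B)) * B = ε / 2 := by field_simp; ring
    linarith
  -- the limit
  have hcau : ∀ w, ∃ g, Tendsto (fun T : ℝ => Pr (F T) id w) atTop (𝓝 g) := by
    intro w
    apply cauchy_map_iff_exists_tendsto.1
    rw [Metric.cauchy_iff]
    refine ⟨inferInstance, fun ε hε => ?_⟩
    obtain ⟨T0, _, h⟩ := main ‖w‖ (ε / 3) (by positivity)
    refine ⟨(fun T : ℝ => Pr (F T) id w) '' Ici T0, image_mem_map (Ici_mem_atTop T0), ?_⟩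
    rintro _ ⟨T, hT, rfl⟩ _ ⟨T', hT', rfl⟩
    obtain ⟨a0, h1⟩ := h T hT
    obtain ⟨a0', h2⟩ := h T' hT'
    have h3 := h1 (max a0 a0') (le_max_left _ _) w le_rfl
    have h4 := h2 (max a0 a0') (le_max_right _ _) w le_rfl
    simp only
    rw [dist_eq_norm]
    set x := E (max a0 a0') w / E (max a0 a0') 0
    have : Pr (F T) id w - Pr (F T') id w = (x - Pr (F T') id w) - (x - Pr (F T) id w) := by ring
    rw [this]
    refine lt_of_le_of_lt (norm_sub_le _ _) ?_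
    linarith
  choose G hG using hcau
  have hPG : ∀ (R ε : ℝ), 0 < ε → ∃ T0 : ℝ, 0 ≤ T0 ∧ ∀ T, T0 ≤ T → ∀ w, ‖w‖ ≤ R → ‖Pr (F T) id w - G w‖ ≤ ε := by
    intro R ε hε
    obtain ⟨T0, hT0, h⟩ := main R (ε / 2) (by positivity)
    refine ⟨T0, hT0, fun T hT w hw => ?_⟩
    refine le_of_tendsto ((tendsto_const_nhds.sub (hG w)).norm) ?_
    filter_upwards [eventually_ge_atTop T0] with T' hT'
    obtain ⟨a0, h1⟩ := h T hT
    obtain ⟨a0', h2⟩ := h T' hT'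
    have h3 := h1 (max a0 a0') (le_max_left _ _) w hw
    have h4 := h2 (max a0 a0') (le_max_right _ _) w hw
    set x := E (max a0 a0') w / E (max a0 a0') 0
    have : Pr (F T) id w - Pr (F T') id w = (x - Pr (F T') id w) - (x - Pr (F T) id w) := by ring
    rw [this]
    refine (norm_sub_le _ _).trans ?_
    linarith
  have hEG : ∀ (R ε : ℝ), 0 < ε → ∃ a0 : ℝ, ∀ a, a0 ≤ a → ∀ w, ‖w‖ ≤ R → ‖E a w / E a 0 - G w‖ ≤ ε := by
    intro R ε hε
    obtain ⟨T0, _, h⟩ := main R (ε / 2) (by positivity)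
    obtain ⟨T1, _, h'⟩ := hPG R (ε / 2) (by positivity)
    obtain ⟨a0, h1⟩ := h (max T0 T1) (le_max_left _ _)
    refine ⟨a0, fun a ha w hw => ?_⟩
    have h2 := h1 a ha w hw
    have h3 := h' (max T0 T1) (le_max_right _ _) w hw
    have : E a w / E a 0 - G w = (E a w / E a 0 - Pr (F (max T0 T1)) id w) + (Pr (F (max T0 T1)) id w - G w) := by ring
    rw [this]
    refine (norm_add_le _ _).trans ?_
    linarith
  have hlim : TendstoLocallyUniformly (fun a w => E a w / E a 0) G atTop := by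
    rw [Metric.tendstoLocallyUniformly_iff]
    intro ε hε x
    obtain ⟨a0, h⟩ := hEG (‖x‖ + 1) (ε / 2) (by positivity)
    refine ⟨Metric.ball x 1, Metric.ball_mem_nhds x one_pos, ?_⟩
    filter_upwards [eventually_ge_atTop a0] with a ha y hy
    have h1 : ‖y‖ ≤ ‖x‖ + 1 := by
      rw [Metric.mem_ball, dist_eq_norm] at hy
      have := norm_sub_norm_le y x
      linarith
    have := h a ha y h1
    rw [dist_comm, dist_eq_norm]
    linarith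
  have hGd : Differentiable ℂ G := by
    rw [← differentiableOn_univ]
    refine (tendstoLocallyUniformlyOn_univ.2 hlim).differentiableOn ?_ isOpen_univ
    filter_upwards [eventually_ge_atTop a1] with a ha
    exact ((hE a ha).div_const _).differentiableOn
  have hG0 : G 0 = 1 := by
    refine tendsto_nhds_unique (hG 0) ?_
    have : (fun T : ℝ => Pr (F T) id 0) = fun _ => 1 := by
      funext T
      unfold Pr
      simp
    rw [this]
    exact tendsto_const_nhds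
  -- the relative estimate in the limit
  have hrelG : ∀ R : ℝ, 0 ≤ R → ∃ T : ℝ, R ≤ T ∧ ∀ w, ‖w‖ ≤ R → ‖G w - Pr (F T) id w‖ ≤ 1 / 2 * ‖Pr (F T) id w‖ := by
    intro R hR
    obtain ⟨T0, hT0, h⟩ := htl R (1 / 10) (by norm_num)
    refine ⟨max T0 R, le_max_right _ _, fun w hw => ?_⟩
    have hTn : 0 ≤ max T0 R := le_max_of_le_left hT0
    have h1 := h (max T0 R) (le_max_left _ _)
    refine le_of_forall_pos_le_add fun ε hε => ?_
    obtain ⟨a0, h2⟩ := key (max T0 R) R (ε / 2) hTn (by positivity) h1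
    obtain ⟨a0', h3⟩ := hEG R (ε / 2) (by positivity)
    have h4 := h2 (max a0 a0') (le_max_left _ _) w hw
    have h5 := h3 (max a0 a0') (le_max_right _ _) w hw
    set x := E (max a0 a0') w / E (max a0 a0') 0
    set T := max T0 R
    have h6 : ‖G w - Pr (F T) id w‖ ≤ ‖x - Pr (F T) id w‖ + ‖x - G w‖ := by
      have : G w - Pr (F T) id w = (x - Pr (F T) id w) - (x - G w) := by ring
      rw [this]
      exact norm_sub_le _ _
    have h7 : 3 * (Real.exp (eps T * R ^ 2) - 1) * ‖Pr (F T) id w‖ ≤ 1 / 2 * ‖Pr (F T) id w‖ :=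
      mul_le_mul_of_nonneg_right (by linarith) (norm_nonneg _)
    linarith
  have hPz : ∀ T w, Pr (F T) id w = 0 ↔ ∃ p ∈ F T, w = p ∨ w = -p := by
    intro T w
    unfold Pr
    rw [Finset.prod_eq_zero_iff]
    refine exists_congr fun p => and_congr_right fun hp => ?_
    have hp0 := hP0 p ((hmemF T p).1 hp).1
    simp only [id]
    rw [sub_eq_zero, eq_comm, div_eq_one_iff_eq (pow_ne_zero 2 hp0), sq_eq_sq_iff_eq_or_eq_neg]
  have hGz : ∀ w, G w = 0 ↔ (w ∈ P ∨ -w ∈ P) := by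
    intro w
    obtain ⟨T, hT, h⟩ := hrelG ‖w‖ (norm_nonneg w)
    have h1 := h w le_rfl
    constructor
    · intro hw
      rw [hw, zero_sub, norm_neg] at h1
      have h2 : ‖Pr (F T) id w‖ = 0 := by
        have := norm_nonneg (Pr (F T) id w)
        linarith
      obtain ⟨p, hp, h3⟩ := (hPz T w).1 (norm_eq_zero.1 h2)
      rcases h3 with rfl | rfl
      · exact Or.inl ((hmemF T _).1 hp).1
      · right
        rw [neg_neg]
        exact ((hmemF T _).1 hp).1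
    · intro hw
      have h2 : Pr (F T) id w = 0 := by
        rw [hPz]
        rcases hw with hw | hw
        · exact ⟨w, (hmemF T w).2 ⟨hw, hT⟩, Or.inl rfl⟩
        · exact ⟨-w, (hmemF T (-w)).2 ⟨hw, by rw [norm_neg]; exact hT⟩, Or.inr (neg_neg w).symm⟩
      rw [h2, sub_zero, norm_zero, mul_zero] at h1
      exact norm_eq_zero.1 (le_antisymm h1 (norm_nonneg _))
  refine ⟨G, hGd, hG0, hGz, fun w hw hd => ?_, hlim, fun w ε hε => ?_⟩
  · -- simplicity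
    obtain ⟨T, hT, h⟩ := hrelG (‖w‖ + 1) (by positivity)
    have hwP := (hGz w).1 hw
    obtain ⟨p0, hp0, hwp⟩ : ∃ p ∈ F T, w = p ∨ w = -p := by
      rcases hwP with h1 | h1
      · exact ⟨w, (hmemF T w).2 ⟨h1, by linarith⟩, Or.inl rfl⟩
      · exact ⟨-w, (hmemF T (-w)).2 ⟨h1, by rw [norm_neg]; linarith⟩, Or.inr (neg_neg w).symm⟩
    have hw2 : w ^ 2 = p0 ^ 2 := by
      rcases hwp with rfl | rfl
      · rfl
      · ring
    have hp0P := ((hmemF T p0).1 hp0).1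
    have hp00 := hP0 p0 hp0P
    have hw0 : w ≠ 0 := by
      rcases hwp with rfl | rfl
      · exact hp00
      · exact neg_ne_zero.2 hp00
    -- the derivative of the product
    set Q : ℂ → ℂ := fun z => ∏ p ∈ (F T).erase p0, (1 - z ^ 2 / p ^ 2) with hQ
    have hQd : Differentiable ℂ Q := by
      simp only [hQ]
      refine Differentiable.fun_finset_prod fun p _ => ?_
      fun_prop
    have hQw : Q w ≠ 0 := by
      simp only [hQ]
      rw [Finset.prod_ne_zero_iff]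
      intro p hp h1
      have hpP := ((hmemF T p).1 (Finset.mem_of_mem_erase hp)).1
      have hpn := hP0 p hpP
      rw [sub_eq_zero, eq_comm, div_eq_one_iff_eq (pow_ne_zero 2 hpn), hw2, sq_eq_sq_iff_eq_or_eq_neg] at h1
      rcases h1 with h1 | h1
      · exact Finset.ne_of_mem_erase hp h1.symm
      · have h2 := (hP p hpP).2
        have h3 := (hP p0 hp0P).2
        rw [h1, Complex.neg_im] at h3
        linarith
    have hPe : ∀ z, Pr (F T) id z = (1 - z ^ 2 / p0 ^ 2) * Q z := by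
      intro z
      simp only [hQ]
      unfold Pr
      rw [← Finset.mul_prod_erase (F T) _ hp0]
      rfl
    have hPd : HasDerivAt (fun z => Pr (F T) id z) (-(2 * w / p0 ^ 2) * Q w) w := by
      have h1 : HasDerivAt (fun z : ℂ => 1 - z ^ 2 / p0 ^ 2) (-(2 * w / p0 ^ 2)) w := by
        have h2 := ((hasDerivAt_pow 2 w).div_const (p0 ^ 2)).const_sub 1
        refine h2.congr_deriv ?_
        simp
      have h3 := h1.mul (hQd w).hasDerivAt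
      have h4 : (fun z => Pr (F T) id z) = fun z => (1 - z ^ 2 / p0 ^ 2) * Q z := funext hPe
      rw [h4]
      refine h3.congr_deriv ?_
      rw [hw2, div_self (pow_ne_zero 2 hp00), sub_self, zero_mul, add_zero]
    have hPw : Pr (F T) id w = 0 := (hPz T w).2 ⟨p0, hp0, hwp⟩
    have hs1 := (hasDerivAt_iff_tendsto_slope.1 hPd).norm
    have hGd' : HasDerivAt G 0 w := by
      have := (hGd w).hasDerivAt
      rwa [hd] at this
    have hs2 := ((hasDerivAt_iff_tendsto_slope.1 hGd').norm).const_mul 2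
    rw [norm_zero, mul_zero] at hs2
    have h5 : ‖-(2 * w / p0 ^ 2) * Q w‖ ≤ 0 := by
      refine le_of_tendsto_of_tendsto hs1 hs2 ?_
      have h6 : ∀ᶠ z in 𝓝[≠] w, z ∈ Metric.ball w 1 := nhdsWithin_le_nhds (Metric.ball_mem_nhds w one_pos)
      filter_upwards [h6] with z hz
      have h7 : ‖z‖ ≤ ‖w‖ + 1 := by
        rw [Metric.mem_ball, dist_eq_norm] at hz
        have := norm_sub_norm_le z w
        linarith
      have h8 := h z h7
      have h9 : ‖Pr (F T) id z‖ ≤ 2 * ‖G z‖ := by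
        have := norm_sub_norm_le (Pr (F T) id z) (G z)
        rw [norm_sub_rev] at this
        linarith
      simp only [slope_def_field, hPw, hw, sub_zero, norm_div]
      rw [mul_div_assoc']
      exact div_le_div_of_nonneg_right h9 (norm_nonneg _)
    have h10 : ‖-(2 * w / p0 ^ 2) * Q w‖ ≠ 0 := by
      rw [norm_ne_zero_iff]
      refine mul_ne_zero (neg_ne_zero.2 (div_ne_zero (mul_ne_zero two_ne_zero hw0) (pow_ne_zero 2 hp00))) hQw
    exact h10 (le_antisymm h5 (norm_nonneg _))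
  · obtain ⟨T0, _, h⟩ := hPG ‖w‖ (ε / 2) (by positivity)
    refine ⟨T0, fun T hT Z hZ => ?_⟩
    have h1 : Z = F T := by
      ext z
      rw [hZ, hmemF]
    have h2 := h T hT w le_rfl
    rw [h1, norm_sub_rev]
    have h3 : Pr (F T) id w = ∏ z ∈ F T, (1 - w ^ 2 / z ^ 2) := rfl
    rw [← h3]
    linarith

theorem ident {X G : ℂ → ℂ} {P : Set ℂ} {eps : ℝ → ℝ} (hX : Differentiable ℂ X) (hev : ∀ w, X (-w) = X w) (h0 : X 0 ≠ 0)
    (hb : ∃ A : ℝ, ∀ w, ‖X w‖ ≤ Real.exp (A * (1 + ‖w‖) ^ (3/2 : ℝ)))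
    (hs : ∀ w, X w = 0 → w.re = 0 ∧ deriv X w ≠ 0) (heps : Tendsto eps atTop (𝓝 0))
    (htail : ∀ T, 0 ≤ T → ∀ S : Finset ℂ, (∀ z ∈ S, X z = 0 ∧ T < ‖z‖) → ∑ z ∈ S, 1 / ‖z‖ ^ 2 ≤ eps T)
    (hP : ∀ p ∈ P, p.re = 0 ∧ 0 < p.im) (hfin : ∀ T, {p | p ∈ P ∧ ‖p‖ ≤ T}.Finite)
    (hXP : ∀ w, X w = 0 ↔ (w ∈ P ∨ -w ∈ P))
    (hG : ∀ w, ∀ ε > 0, ∃ T0, ∀ T ≥ T0, ∀ Z : Finset ℂ, (∀ z, z ∈ Z ↔ z ∈ P ∧ ‖z‖ ≤ T) →
        ‖G w - ∏ z ∈ Z, (1 - w ^ 2 / z ^ 2)‖ < ε) : ∀ w, X w / X 0 = G w := by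
  intro w
  obtain ⟨A, hA⟩ := hb
  have hPim : ∀ z, (X z = 0 ∧ 0 < z.im) ↔ z ∈ P := by
    intro z
    constructor
    · rintro ⟨h1, h2⟩
      rcases (hXP z).1 h1 with h3 | h3
      · exact h3
      · have := (hP _ h3).2
        rw [Complex.neg_im] at this
        linarith
    · exact fun h => ⟨(hXP z).2 (Or.inl h), (hP z h).2⟩
  have heps0 : ∀ T, 0 ≤ T → 0 ≤ eps T := fun T hT => by
    have := htail T hT ∅ (fun z hz => absurd hz (Finset.notMem_empty z))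
    simpa using this
  have hbd : ∃ B : ℝ, 0 ≤ B ∧ ∀ T ≥ (0 : ℝ), ‖∏ z ∈ (hfin T).toFinset, (1 - w ^ 2 / z ^ 2)‖ ≤ B := by
    refine ⟨Real.exp (eps 0 * ‖w‖ ^ 2), (Real.exp_pos _).le, fun T hT => ?_⟩
    have h1 : ∑ p ∈ (hfin T).toFinset, 1 / ‖(id p : ℂ)‖ ^ 2 ≤ eps 0 := by
      refine htail 0 le_rfl _ fun z hz => ?_
      rw [Set.Finite.mem_toFinset] at hz
      have h2 := (hPim z).2 hz.1
      refine ⟨h2.1, norm_pos_iff.2 fun h => ?_⟩
      rw [h, Complex.zero_im] at h2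
      exact lt_irrefl _ h2.2
    exact (prod_exp_bound (ζ := id) le_rfl h1).1
  obtain ⟨B, hB0, hB⟩ := hbd
  have hlim1 : Tendsto (fun T => B * (Real.exp (eps T * ‖w‖ ^ 2) - 1)) atTop (𝓝 0) := by
    have h2 := (((Real.continuous_exp.tendsto _).comp (heps.mul_const (‖w‖ ^ 2))).sub_const 1).const_mul B
    simpa [Function.comp_def] using h2
  have key : ∀ ε : ℝ, 0 < ε → ‖X w / X 0 - G w‖ ≤ ε := by
    intro ε hε
    obtain ⟨T0, hT0⟩ := hG w (ε / 2) (by positivity)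
    obtain ⟨T, h1, h2⟩ := ((hlim1.eventually (gt_mem_nhds (show 0 < ε / 2 by positivity))).and
      (eventually_ge_atTop (max T0 0))).exists
    have hTn : 0 ≤ T := (le_max_right _ _).trans h2
    have h3 := hT0 T ((le_max_left _ _).trans h2) (hfin T).toFinset (fun z => by
      rw [Set.Finite.mem_toFinset]; rfl)
    obtain ⟨h, h4, h5⟩ := h114.CA.LE hX hev h0 hA hs (T := T) (ε := eps T) (hfin T).toFinset (fun z => by
      rw [Set.Finite.mem_toFinset]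
      show z ∈ P ∧ ‖z‖ ≤ T ↔ _
      rw [← hPim, and_assoc]) (fun S hS => htail T hTn S fun z hz => ⟨(hS z hz).1, (hS z hz).2.2⟩) w
    set Q := ∏ z ∈ (hfin T).toFinset, (1 - w ^ 2 / z ^ 2) with hQ
    have h6 : X w / X 0 - G w = Q * (h - 1) - (G w - Q) := by rw [h4]; ring
    rw [h6]
    refine (norm_sub_le _ _).trans ?_
    rw [norm_mul]
    have h7 : ‖Q‖ * ‖h - 1‖ ≤ B * (Real.exp (eps T * ‖w‖ ^ 2) - 1) := mul_le_mul (hB T hTn) h5 (norm_nonneg _) hB0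
    linarith
  have h8 : ‖X w / X 0 - G w‖ = 0 := le_antisymm (le_of_forall_pos_le_add fun ε hε => by rw [zero_add]; exact key ε hε) (norm_nonneg _)
  exact sub_eq_zero.1 (norm_eq_zero.1 h8)

end Pool.Agent.Run7.h336.CAL
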