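import Pool.Agent.Run7.h336.CA10
import Pool.Agent.Run7.h336.CA12
import Pool.Agent.Run7.h336.CAL

/-! # Convergence -/

set_option autoImplicit false
set_option linter.unusedSectionVars false
set_option maxHeartbeats 2000000

open Complex Filter Topology Set MeasureTheory
open scoped ComplexConjugate

namespace Pool.Agent.Y23.G.CA

/-- the common bound for the tails -/
noncomputable def epsT (C M T : ℝ) : ℝ := if T < 1 then M else 200 * C * T ^ (-(1 / 4) : ℝ)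

lemma epsT_lim (C M : ℝ) : Tendsto (epsT C M) atTop (𝓝 0) := by
  have h1 : Tendsto (fun T : ℝ => 200 * C * T ^ (-(1 / 4) : ℝ)) atTop (𝓝 0) := by
    have := (tendsto_rpow_neg_atTop (y := 1 / 4) (by norm_num)).const_mul (200 * C)
    simpa using this
  refine h1.congr' ?_
  filter_upwards [eventually_ge_atTop 1] with T hT
  unfold epsT
  rw [if_neg (not_lt.2 hT)]

/-- the tail bound at every height -/
theorem tail_all {C k : ℝ} (hC : 0 < C) (hk : 0 < k) {P : ℂ → Prop} (h : ∀ r : ℝ, 0 ≤ r → ∀ Z : Finset ℂ,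
    (∀ z ∈ Z, P z ∧ ‖z‖ ≤ r) → (Z.card : ℝ) ≤ C * (1 + r) ^ (7 / 4 : ℝ)) (hPk : ∀ z, P z → k < ‖z‖)
    (T : ℝ) (S : Finset ℂ) (hS : ∀ z ∈ S, P z ∧ T < ‖z‖) :
    ∑ z ∈ S, 1 / ‖z‖ ^ 2 ≤ epsT C (4 * C / k ^ 2 + 200 * C) T := by
  classical
  unfold epsT
  by_cases hT : T < 1
  · rw [if_pos hT, ← Finset.sum_filter_add_sum_filter_not S (fun z => ‖z‖ ≤ 1)]
    refine add_le_add ?_ ?_
    · have h1 : ∀ z ∈ S.filter (fun z => ‖z‖ ≤ 1), 1 / ‖z‖ ^ 2 ≤ 1 / k ^ 2 := by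
        intro z hz
        rw [Finset.mem_filter] at hz
        have := hPk z (hS z hz.1).1
        exact one_div_le_one_div_of_le (by positivity) (pow_le_pow_left₀ hk.le this.le 2)
      have h2 := h 1 zero_le_one (S.filter (fun z => ‖z‖ ≤ 1)) (fun z hz => by
        rw [Finset.mem_filter] at hz
        exact ⟨(hS z hz.1).1, hz.2⟩)
      have h3 : (1 + 1 : ℝ) ^ (7 / 4 : ℝ) ≤ 4 := by
        calc (1 + 1 : ℝ) ^ (7 / 4 : ℝ) ≤ (1 + 1) ^ (2 : ℝ) := Real.rpow_le_rpow_of_exponent_le (by norm_num) (by norm_num)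
          _ = 4 := by norm_num
      calc _ ≤ ∑ z ∈ S.filter (fun z => ‖z‖ ≤ 1), 1 / k ^ 2 := Finset.sum_le_sum h1
        _ = ((S.filter (fun z => ‖z‖ ≤ 1)).card : ℝ) * (1 / k ^ 2) := by rw [Finset.sum_const, nsmul_eq_mul]
        _ ≤ (C * 4) * (1 / k ^ 2) := mul_le_mul_of_nonneg_right (h2.trans (mul_le_mul_of_nonneg_left h3 hC.le)) (by positivity)
        _ = 4 * C / k ^ 2 := by ring
    · have h1 := tail hC h le_rfl (S.filter (fun z => ¬ ‖z‖ ≤ 1)) (fun z hz => by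
        rw [Finset.mem_filter] at hz
        exact ⟨(hS z hz.1).1, not_le.1 hz.2⟩)
      rw [Real.one_rpow, mul_one] at h1
      exact h1
  · rw [if_neg hT]
    exact tail hC h (not_lt.1 hT) S hS

variable [K : Win] [L : LFun]

lemma near_of_rate (hG : ∀ ρ : Zt, (ρ : ℂ).re = 1 / 2) (hwin : ∀ ρ : Zt, K.k < |(ρ : ℂ).im|) (b : ℂ)
    (hb : b + 1 / 2 ∈ (zd (L := L)).Zs) (δ : ℝ) (hδ : 0 < δ) : ∃ a0 : ℝ, ∀ a : ℝ, a0 ≤ a → ∀ e : ℝ → ℂ, KK a e →
      ∃ w, TT e w = 0 ∧ ‖w - b‖ < δ := by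
  have hcc := cc_pos (L := L)
  have hm := m_one (L := L)
  have hre : b.re = 0 := by
    have := hG ⟨b + 1 / 2, hb⟩
    simpa using this
  have him : K.k < |b.im| := by
    have := hwin ⟨b + 1 / 2, hb⟩
    simpa using this
  have h0 : L.X (1 / 2 + b) = 0 := by
    rw [add_comm]; exact hb
  obtain ⟨a0, _, h⟩ := rate (L := L) hG hre h0 him (c := cc / 2) (by linarith)
  have hlim : Tendsto (fun a : ℝ => Real.exp (-(cc / 2 * Real.exp (2 * a / L.m)))) atTop (𝓝 0) := by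
    refine Real.tendsto_exp_neg_atTop_nhds_zero.comp ?_
    refine Tendsto.const_mul_atTop (by positivity) (Real.tendsto_exp_atTop.comp ?_)
    exact Tendsto.atTop_div_const (by linarith) (Tendsto.const_mul_atTop (by norm_num) tendsto_id)
  obtain ⟨a1, ha1⟩ := (hlim.eventually (gt_mem_nhds hδ)).exists_forall_of_atTop
  refine ⟨max a0 a1, fun a ha e he => ?_⟩
  obtain ⟨w, hw, hw2⟩ := h a ((le_max_left _ _).trans ha) e he
  exact ⟨w, hw, hw2.trans (ha1 a ((le_max_right _ _).trans ha))⟩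

/-- **convergence of the generators** -/
theorem main_conv (hsym : Sym (zd (L := L))) (hG : ∀ ρ : Zt, (ρ : ℂ).re = 1 / 2) (hwin : ∀ ρ : Zt, K.k < |(ρ : ℂ).im|)
    {e : ℝ → ℝ → ℂ} (he : ∀ a : ℝ, 0 < a → ∃ (N : ℕ) (w1 : ℂ), GData a (e a) N w1) :
    ∃ G : ℂ → ℂ, Differentiable ℂ G ∧ G 0 = 1 ∧ (∀ w, G w = 0 ↔ L.X (1 / 2 + w) = 0) ∧
      (∀ w, G w = 0 → deriv G w ≠ 0) ∧ TendstoLocallyUniformly (fun a w => TT (e a) w / TT (e a) 0) G atTop ∧
      ∀ Y : ℂ → ℂ, Differentiable ℂ Y → (∀ w, Y (-w) = Y w) →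
        (∃ A : ℝ, ∀ w, ‖Y w‖ ≤ Real.exp (A * (1 + ‖w‖) ^ (3 / 2 : ℝ))) →
        (∀ w, Y w = 0 ↔ L.X (1 / 2 + w) = 0) → (∀ w, Y w = 0 → deriv Y w ≠ 0) →
        ∀ w, Y w / Y 0 = G w := by
  classical
  have hk := K.pos
  have hnear := near_of_rate (L := L) hG hwin
  obtain ⟨a1, ha1, hcen⟩ := center (DZ := zd (L := L)) hG hwin hnear
  obtain ⟨C1, hC1, hcount⟩ := count (DZ := zd (L := L)) hG hwin
  obtain ⟨C2, hC2, hcard⟩ := Bf_card (DZ := zd (L := L))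
  set C : ℝ := max C1 C2 with hC
  have hC0 : 0 < C := lt_max_of_lt_left hC1
  have hZsym : ∀ b : ℂ, L.X (1 / 2 + b) = 0 → L.X (1 / 2 + -b) = 0 := by
    intro b hb
    have h1 := (hsym (1 / 2 + b) hb).1
    have e1 : 1 - (1 / 2 + b) = 1 / 2 + -b := by ring
    rw [e1] at h1
    exact h1
  have hZre : ∀ b : ℂ, L.X (1 / 2 + b) = 0 → b.re = 0 ∧ K.k < |b.im| := by
    intro b hb
    have h1 := hG ⟨1 / 2 + b, hb⟩
    have h2 := hwin ⟨1 / 2 + b, hb⟩
    constructor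
    · simpa using h1
    · simpa using h2
  have hmemB : ∀ (b : ℂ) (R : ℝ), b ∈ Bf (DZ := zd (L := L)) R ↔ L.X (1 / 2 + b) = 0 ∧ ‖b‖ ≤ R := by
    intro b R
    rw [mem_Bf, add_comm]
    exact Iff.rfl
  set P : Set ℂ := {b : ℂ | L.X (1 / 2 + b) = 0 ∧ 0 < b.im} with hP
  have hPiff : ∀ w, L.X (1 / 2 + w) = 0 ↔ (w ∈ P ∨ -w ∈ P) := by
    intro w
    constructor
    · intro hw
      have h1 := (hZre w hw).2
      rcases lt_or_ge 0 w.im with h2 | h2
      · exact Or.inl ⟨hw, h2⟩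
      · refine Or.inr ⟨hZsym w hw, ?_⟩
        rw [Complex.neg_im]
        rcases h2.lt_or_eq with h3 | h3
        · linarith
        · rw [h3, abs_zero] at h1
          linarith
    · rintro (h | h)
      · exact h.1
      · have := hZsym _ h.1
        rwa [neg_neg] at this
  set M : ℝ := 4 * C / K.k ^ 2 + 200 * C with hM
  -- the tails
  have hcount' : ∀ a : ℝ, 0 < a → ∀ r : ℝ, 0 ≤ r → ∀ Z : Finset ℂ, (∀ z ∈ Z, TT (e a) z = 0 ∧ ‖z‖ ≤ r) →
      (Z.card : ℝ) ≤ C * (1 + r) ^ (7 / 4 : ℝ) := by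
    intro a ha r hr Z hZ
    obtain ⟨N, w1, hGD⟩ := he a ha
    exact (hcount a ha (e a) N w1 hGD r hr Z hZ).trans (mul_le_mul_of_nonneg_right (le_max_left _ _) (by positivity))
  have hcardX : ∀ r : ℝ, 0 ≤ r → ∀ Z : Finset ℂ, (∀ z ∈ Z, L.X (1 / 2 + z) = 0 ∧ ‖z‖ ≤ r) →
      (Z.card : ℝ) ≤ C * (1 + r) ^ (7 / 4 : ℝ) := by
    intro r hr Z hZ
    have h1 : Z ⊆ Bf (DZ := zd (L := L)) r := fun z hz => (hmemB z r).2 (hZ z hz)
    have h2 : (Z.card : ℝ) ≤ ((Bf (DZ := zd (L := L)) r).card : ℝ) := by exact_mod_cast Finset.card_le_card h1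
    refine h2.trans ((hcard r hr).trans ?_)
    exact mul_le_mul (le_max_right _ _) (Real.rpow_le_rpow_of_exponent_le (by linarith) (by norm_num)) (by positivity) hC0.le
  have htailX : ∀ T, 0 ≤ T → ∀ S : Finset ℂ, (∀ z ∈ S, L.X (1 / 2 + z) = 0 ∧ T < ‖z‖) →
      ∑ z ∈ S, 1 / ‖z‖ ^ 2 ≤ epsT C M T := by
    intro T _ S hS
    exact tail_all hC0 hk hcardX (fun z hz => (hZre z hz).2.trans_le (Complex.abs_im_le_norm z)) T S hS
  obtain ⟨G, hGd, hG0, hGz, hGs, hGlim, hGprod⟩ := Run7.h336.CAL.limitT (E := fun a w => TT (e a) w) (a1 := a1) (P := P)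
    (eps := epsT C M)
    (fun a ha => by
      obtain ⟨N, w1, hGD⟩ := he a (by linarith)
      exact differentiable_TT hGD.mem.1.1)
    (fun a ha => by
      obtain ⟨N, w1, hGD⟩ := he a (by linarith)
      exact (hcen a ha _ N w1 hGD).2 hsym)
    (fun a ha h0 => by
      obtain ⟨N, w1, hGD⟩ := he a (by linarith)
      have := (hcen a ha _ N w1 hGD).1 0 h0
      rw [norm_zero] at this
      linarith)
    (fun a ha => by
      obtain ⟨N, w1, hGD⟩ := he a (by linarith)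
      exact TT_growth (by linarith) hGD.mem.1.1)
    (fun a ha w hw => by
      obtain ⟨N, w1, hGD⟩ := he a (by linarith)
      exact ⟨hGD.line (by linarith) hw, hGD.simple (by linarith) hw⟩)
    (epsT_lim C M)
    (fun a ha T _ S hS => by
      obtain ⟨N, w1, hGD⟩ := he a (by linarith)
      exact tail_all hC0 hk (hcount' a (by linarith)) (hcen a ha _ N w1 hGD).1 T S hS)
    (fun p hp => ⟨(hZre p hp.1).1, hp.2⟩)
    (fun T => by
      refine (Bs_finite (DZ := zd (L := L)) T).subset fun p hp => ?_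
      exact mem_Bf.1 ((hmemB p T).2 ⟨hp.1.1, hp.2⟩))
    (fun T hT => by
      obtain ⟨δ0, hδ0, h⟩ := matched (DZ := zd (L := L)) hG hwin hnear hT
      refine ⟨min δ0 K.k, lt_min hδ0 hk, fun δ hδ hδ' => ?_⟩
      obtain ⟨a0, ha0, h1⟩ := h δ hδ (hδ'.trans (min_le_left _ _))
      refine ⟨a0, fun a ha => ?_⟩
      obtain ⟨N, w1, hGD⟩ := he a (by linarith)
      obtain ⟨ζ, hz1, hz2, hz3⟩ := h1 a ha (e a) N w1 hGD
      refine ⟨ζ, fun p hp hpT => hz1 p ((hmemB p T).2 ⟨hp.1, hpT⟩),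
        fun p hp p' hp' hpT hpT' => hz2 p ((hmemB p T).2 ⟨hp.1, hpT⟩) p' ((hmemB p' T).2 ⟨hp'.1, hpT'⟩),
        fun z hz hzim hzT => ?_⟩
      obtain ⟨b, hb, rfl⟩ := hz3 z hz hzT
      have hb' := (hmemB b T).1 hb
      refine ⟨b, ⟨hb'.1, ?_⟩, hb'.2, rfl⟩
      by_contra hneg
      have h4 := (hZre b hb'.1).2
      rw [abs_of_nonpos (not_lt.1 hneg)] at h4
      have h5 := (hz1 b hb).2
      have h6 := Complex.abs_im_le_norm (ζ b - b)
      rw [Complex.sub_im] at h6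
      have h7 := (abs_le.1 h6).2
      have h8 : δ ≤ K.k := hδ'.trans (min_le_right _ _)
      linarith)
  refine ⟨G, hGd, hG0, fun w => by rw [hGz, hPiff], hGs, hGlim, fun Y hY hYe hYg hYz hYs w => ?_⟩
  have hY0 : Y 0 ≠ 0 := by
    intro h
    have := (hZre 0 ((hYz 0).1 h)).2
    rw [Complex.zero_im, abs_zero] at this
    linarith
  exact Run7.h336.CAL.ident (X := Y) (G := G) (P := P) (eps := epsT C M) hY hYe hY0 hYg
    (fun w hw => ⟨(hZre w ((hYz w).1 hw)).1, hYs w hw⟩) (epsT_lim C M)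
    (fun T hT S hS => htailX T hT S fun z hz => ⟨(hYz z).1 (hS z hz).1, (hS z hz).2⟩)
    (fun p hp => ⟨(hZre p hp.1).1, hp.2⟩)
    (fun T => by
      refine (Bs_finite (DZ := zd (L := L)) T).subset fun p hp => ?_
      exact mem_Bf.1 ((hmemB p T).2 ⟨hp.1.1, hp.2⟩))
    (fun w => by rw [hYz, hPiff]) hGprod w

end Pool.Agent.Y23.G.CA
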