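import Pool.Agent.Run7.h336.CA13
import Pool.Agent.Run7.h336.CA14
import Pool.Agent.Run7.h114.CA.P7

/-! # The theorem for a self-dual L-function -/

set_option autoImplicit false
set_option linter.unusedSectionVars false
set_option maxHeartbeats 2000000

open Complex Filter Topology Set MeasureTheory
open scoped ComplexConjugate

namespace Pool.Agent.Y23.G.CA

variable [K : Win] [L : LFun]

/-- the entire function of the generator, in the variable of the L-function -/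
noncomputable def EE (e : ℝ → ℝ → ℂ) (a : ℝ) (s : ℂ) : ℂ := TT (e a) (s - 1 / 2)

lemma deriv_EE (e : ℝ → ℝ → ℂ) (a : ℝ) (s : ℂ) : deriv (EE e a) s = deriv (TT (e a)) (s - 1 / 2) :=
  deriv_comp_sub_const (f := TT (e a)) (1 / 2) s

/-- the data chosen for every `a` -/
structure Gen (e : ℝ → ℝ → ℂ) (N : ℝ → ℕ) (w1 : ℝ → ℂ) : Prop where
  gd : ∀ a : ℝ, 0 < a → GData a (e a) (N a) (w1 a)
  real : ∀ a : ℝ, 0 < a → ∀ w, TT (e a) (-conj w) = conj (TT (e a) w)

theorem exists_gen : ∃ (e : ℝ → ℝ → ℂ) (N : ℝ → ℕ) (w1 : ℝ → ℂ), Gen e N w1 := by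
  classical
  choose! e N w1 h using fun (a : ℝ) (ha : 0 < a) => exists_real_data (DZ := zd (L := L)) ha
  exact ⟨e, N, w1, ⟨fun a ha => (h a ha).1, fun a ha => (h a ha).2⟩⟩

/-- no zero on the window -/
def NoZ (K : Win) (L : LFun) : Prop := ∀ t : ℝ, |t| ≤ K.k → L.X (1 / 2 + t * I) ≠ 0

lemma NoZ.win (h : NoZ K L) (hG : ∀ ρ : Zt, (ρ : ℂ).re = 1 / 2) : ∀ ρ : Zt, K.k < |(ρ : ℂ).im| := by
  intro ρ
  by_contra hcon
  refine h (ρ : ℂ).im (not_lt.1 hcon) ?_
  have e1 : 1 / 2 + ((ρ : ℂ).im : ℂ) * I = (ρ : ℂ) := by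
    apply Complex.ext
    · simp [hG ρ]
    · simp
  rw [e1]
  exact ρ.2

section

variable {e : ℝ → ℝ → ℂ} {N : ℝ → ℕ} {w1 : ℝ → ℂ}

/-- **the structure of the minimisers** -/
theorem structureE (hsym : Sym (zd (L := L))) (hg : Gen e N w1) {a : ℝ} (ha : 0 < a) :
    Differentiable ℂ (EE e a) ∧ (∃ s, EE e a s ≠ 0) ∧ (∀ s, EE e a (1 - conj s) = conj (EE e a s)) ∧
      ((∀ s, EE e a (1 - s) = EE e a s) ∨ ∀ s, EE e a (1 - s) = -EE e a s) ∧
      (∀ s, EE e a s = 0 → s.re = 1 / 2 ∧ deriv (EE e a) s ≠ 0) ∧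
      ∀ f, Hd a f → (KK a f ↔ ∃ p : Polynomial ℂ, p.natDegree < N a + 1 ∧ ∀ s, TT f (s - 1 / 2) = p.eval s * EE e a s) := by
  have hG := hg.gd a ha
  have hd := differentiable_TT hG.mem.1.1
  refine ⟨hd.comp (by fun_prop), ⟨w1 a + 1 / 2, ?_⟩, fun s => ?_, ?_, fun s hs => ?_, fun f hf => ?_⟩
  · unfold EE
    rw [add_sub_cancel_right]
    exact hG.nz
  · have : 1 - conj s - 1 / 2 = -conj (s - 1 / 2) := by
      rw [map_sub, map_div₀, map_one, map_ofNat]
      ring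
    unfold EE
    rw [this, hg.real a ha]
  · have e1 : ∀ s : ℂ, 1 - s - 1 / 2 = -(s - 1 / 2) := fun s => by ring
    rcases parity hsym ha hG with h | h
    · left
      intro s
      unfold EE
      rw [e1, h]
    · right
      intro s
      unfold EE
      rw [e1, h]
  · have h1 := hG.line ha hs
    have h2 := hG.simple ha hs
    refine ⟨?_, ?_⟩
    · have e1 : (s - 1 / 2).re = s.re - 1 / 2 := by simp
      rw [e1] at h1
      linarith
    · rw [deriv_EE]; exact h2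
  · have hall : KK a f ↔ ∃ p : Polynomial ℂ, p.natDegree ≤ N a ∧ ∀ w, TT f w = p.eval w * TT (e a) w := by
      constructor
      · exact fun hK => hG.all ha hK
      · rintro ⟨p, hp, h1⟩
        obtain ⟨g, hg, h2⟩ := hG.poly ha p hp
        exact hg.congr hf fun w => by rw [h1, h2]
    rw [hall]
    constructor
    · rintro ⟨p, hp, h1⟩
      refine ⟨p.comp (Polynomial.X - Polynomial.C (1 / 2)), ?_, fun s => ?_⟩
      · rw [Polynomial.natDegree_comp, Polynomial.natDegree_X_sub_C]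
        omega
      · unfold EE
        rw [h1, Polynomial.eval_comp]
        simp
    · rintro ⟨p, hp, h1⟩
      refine ⟨p.comp (Polynomial.X + Polynomial.C (1 / 2)), ?_, fun w => ?_⟩
      · rw [Polynomial.natDegree_comp, Polynomial.natDegree_X_add_C]
        omega
      · have h2 := h1 (w + 1 / 2)
        unfold EE at h2
        simp only [add_sub_cancel_right] at h2
        rw [h2, Polynomial.eval_comp]
        simp

/-- **convergence under the Riemann hypothesis** -/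
theorem convE (hsym : Sym (zd (L := L))) (hg : Gen e N w1) (hno : NoZ K L) (hG : ∀ ρ : Zt, (ρ : ℂ).re = 1 / 2) :
    ∃ G : ℂ → ℂ, Differentiable ℂ G ∧ G (1 / 2) = 1 ∧ (∀ s, G s = 0 ↔ L.X s = 0) ∧
      (∀ s, G s = 0 → deriv G s ≠ 0) ∧ TendstoLocallyUniformly (fun a s => EE e a s / EE e a (1 / 2)) G atTop ∧
      ∀ Y : ℂ → ℂ, Differentiable ℂ Y → (∀ s, Y (1 - s) = Y s) →
        (∃ A : ℝ, ∀ w, ‖Y (1 / 2 + w)‖ ≤ Real.exp (A * (1 + ‖w‖) ^ (3 / 2 : ℝ))) →
        (∀ s, Y s = 0 ↔ L.X s = 0) → (∀ s, Y s = 0 → deriv Y s ≠ 0) →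
        ∀ s, Y s / Y (1 / 2) = G s := by
  obtain ⟨G, h1, h2, h3, h4, h5, h6⟩ := main_conv (L := L) hsym hG (hno.win hG)
    (e := e) (fun a ha => ⟨N a, w1 a, hg.gd a ha⟩)
  have hd : ∀ s, deriv (fun s => G (s - 1 / 2)) s = deriv G (s - 1 / 2) := fun s =>
    deriv_comp_sub_const (f := G) (1 / 2) s
  refine ⟨fun s => G (s - 1 / 2), h1.comp (by fun_prop), ?_, fun s => ?_, fun s hs => ?_, ?_,
    fun Y hY hYe hYg hYz hYs s => ?_⟩
  · simp only [sub_self]
    exact h2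
  · simp only
    rw [h3, add_sub_cancel]
  · rw [hd]
    exact h4 _ hs
  · have h7 := h5.comp (fun s : ℂ => s - 1 / 2) (by fun_prop)
    refine h7.congr fun a s => ?_
    simp only [Function.comp_apply, EE, sub_self]
  · have hYd : ∀ w, deriv (fun w => Y (1 / 2 + w)) w = deriv Y (1 / 2 + w) := fun w =>
      deriv_comp_const_add (f := Y) (1 / 2) w
    have h8 := h6 (fun w => Y (1 / 2 + w)) (hY.comp (by fun_prop)) (fun w => by
      have := hYe (1 / 2 + w)
      show Y (1 / 2 + -w) = Y (1 / 2 + w)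
      rw [← this]
      congr 1
      ring) hYg (fun w => hYz _) (fun w hw => by
      rw [hYd]
      exact hYs _ hw) (s - 1 / 2)
    simp only [add_zero, add_sub_cancel] at h8
    exact h8

/-- **the equivalence for the Riemann hypothesis** -/
theorem equiv_RH (hsym : Sym (zd (L := L))) (hg : Gen e N w1) (hno : NoZ K L) :
    (∀ ρ : Zt, (ρ : ℂ).re = 1 / 2) ↔ ∃ G : ℂ → ℂ, TendstoLocallyUniformly (fun a s => EE e a s / EE e a (1 / 2)) G atTop ∧
      G (1 / 2) = 1 ∧ ∀ s, L.X s = 0 → G s = 0 := by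
  constructor
  · intro hG
    obtain ⟨G, _, h2, h3, _, h5, _⟩ := convE hsym hg hno hG
    exact ⟨G, h5, h2, fun s hs => (h3 s).2 hs⟩
  · rintro ⟨G, h1, h2, h3⟩ ρ
    refine conv_line (E := EE e) (fun a ha => (structureE hsym hg ha).1)
      (fun a ha s hs => ((structureE hsym hg ha).2.2.2.2.1 s hs).1) (by rw [h2]; exact one_ne_zero) h1 ρ (h3 ρ ρ.2)

/-- **the equivalence for the Riemann hypothesis and the simplicity of the zeros** -/
theorem equiv_simple (hsym : Sym (zd (L := L))) (hg : Gen e N w1) (hno : NoZ K L) (hfe : ∀ s, L.X (1 - s) = L.X s)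
    (hgr : ∃ A : ℝ, ∀ w, ‖L.X (1 / 2 + w)‖ ≤ Real.exp (A * (1 + ‖w‖) ^ (3 / 2 : ℝ))) :
    ((∀ ρ : Zt, (ρ : ℂ).re = 1 / 2) ∧ ∀ s, L.X s = 0 → deriv L.X s ≠ 0) ↔
      TendstoLocallyUniformly (fun a s => EE e a s / EE e a (1 / 2)) (fun s => L.X s / L.X (1 / 2)) atTop := by
  have hX0 : L.X (1 / 2) ≠ 0 := by
    have := hno 0 (by rw [abs_zero]; exact K.pos.le)
    simpa using this
  constructor
  · rintro ⟨hG, hs⟩
    obtain ⟨G, _, _, _, _, h5, h6⟩ := convE hsym hg hno hG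
    have h7 := h6 L.X Xd hfe hgr (fun s => Iff.rfl) hs
    have h8 : G = fun s => L.X s / L.X (1 / 2) := by
      funext s
      exact (h7 s).symm
    rw [h8] at h5
    exact h5
  · intro h
    have hG : ∀ ρ : Zt, (ρ : ℂ).re = 1 / 2 := by
      rw [equiv_RH hsym hg hno]
      refine ⟨_, h, div_self hX0, fun s hs => ?_⟩
      rw [hs, zero_div]
    refine ⟨hG, fun s hs => ?_⟩
    obtain ⟨G, _, _, h3, h4, h5, _⟩ := convE hsym hg hno hG
    have h8 : G = fun s => L.X s / L.X (1 / 2) := by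
      funext s
      have t1 := (tendstoLocallyUniformlyOn_univ.2 h5).tendsto_at (mem_univ s)
      have t2 := (tendstoLocallyUniformlyOn_univ.2 h).tendsto_at (mem_univ s)
      exact tendsto_nhds_unique t1 t2
    have h9 := h4 s ((h3 s).2 hs)
    rw [h8, deriv_div_const] at h9
    intro h10
    rw [h10, zero_div] at h9
    exact h9 rfl

/-- **the zeros** -/
theorem zerosE (hg : Gen e N w1) (hno : NoZ K L) (hG : ∀ ρ : Zt, (ρ : ℂ).re = 1 / 2) {c : ℝ} (hc0 : 0 < c) (hc : c < cc)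
    {R : ℝ} (hR : 0 ≤ R) : ∃ A : ℝ, 0 < A ∧ ∀ a : ℝ, A ≤ a → ∃ ζ : ℂ → ℂ,
      (∀ ρ, L.X ρ = 0 → ‖ρ - 1 / 2‖ ≤ R → EE e a (ζ ρ) = 0 ∧ ‖ζ ρ - ρ‖ < Real.exp (-c * Real.exp (2 * a / L.m))) ∧
      (∀ ρ ρ', L.X ρ = 0 → L.X ρ' = 0 → ‖ρ - 1 / 2‖ ≤ R → ‖ρ' - 1 / 2‖ ≤ R → ζ ρ = ζ ρ' → ρ = ρ') ∧
      ∀ s, EE e a s = 0 → ‖s - 1 / 2‖ ≤ R → ∃ ρ, L.X ρ = 0 ∧ ‖ρ - 1 / 2‖ ≤ R ∧ s = ζ ρ := by
  have hwin := hno.win hG
  have hm := m_one (L := L)
  have hη : Tendsto (fun a : ℝ => Real.exp (-c * Real.exp (2 * a / L.m))) atTop (𝓝 0) := by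
    refine Real.tendsto_exp_atBot.comp ?_
    refine Tendsto.const_mul_atTop_of_neg (by linarith) (Real.tendsto_exp_atTop.comp ?_)
    exact Tendsto.atTop_div_const (by linarith) (Tendsto.const_mul_atTop (by norm_num) tendsto_id)
  obtain ⟨A, hA, h⟩ := matched_near (DZ := zd (L := L)) hG hwin hη (fun b hb => by
    have hre : b.re = 0 := by
      have := hG ⟨b + 1 / 2, hb⟩
      simpa using this
    have him : K.k < |b.im| := by
      have := hwin ⟨b + 1 / 2, hb⟩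
      simpa using this
    have h0 : L.X (1 / 2 + b) = 0 := by
      rw [add_comm]; exact hb
    obtain ⟨a0, _, h⟩ := rate (L := L) hG hre h0 him hc
    refine ⟨a0, fun a ha e he => ?_⟩
    obtain ⟨w, hw, hw2⟩ := h a ha e he
    refine ⟨w, hw, ?_⟩
    rw [neg_mul]
    exact hw2) hR
  refine ⟨A, hA, fun a ha => ?_⟩
  have ha0 : 0 < a := by linarith
  have hGD := hg.gd a ha0
  obtain ⟨ζ, h1, h2, h3⟩ := h a ha (e a) hGD.mem ⟨w1 a, hGD.nz⟩ fun h0 => (zero_case hG ha0 h0 hGD).2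
  have hmemB : ∀ s : ℂ, s - 1 / 2 ∈ Bf (DZ := zd (L := L)) R ↔ L.X s = 0 ∧ ‖s - 1 / 2‖ ≤ R := by
    intro s
    rw [mem_Bf, sub_add_cancel]
    exact Iff.rfl
  refine ⟨fun s => ζ (s - 1 / 2) + 1 / 2, fun ρ hρ hρR => ?_, fun ρ ρ' hρ hρ' hρR hρR' he => ?_, fun s hs hsR => ?_⟩
  · obtain ⟨h4, h5⟩ := h1 (ρ - 1 / 2) ((hmemB ρ).2 ⟨hρ, hρR⟩)
    refine ⟨?_, ?_⟩
    · unfold EE
      simp only [add_sub_cancel_right]
      exact h4
    · have e1 : ζ (ρ - 1 / 2) + 1 / 2 - ρ = ζ (ρ - 1 / 2) - (ρ - 1 / 2) := by ring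
      simp only
      rw [e1]
      exact h5
  · have h4 := h2 (ρ - 1 / 2) ((hmemB ρ).2 ⟨hρ, hρR⟩) (ρ' - 1 / 2) ((hmemB ρ').2 ⟨hρ', hρR'⟩) (add_right_cancel he)
    exact sub_left_injective h4
  · obtain ⟨b, hb, hsb⟩ := h3 (s - 1 / 2) hs hsR
    refine ⟨b + 1 / 2, ?_, ?_, ?_⟩
    · exact (mem_Bf.1 hb).1
    · rw [add_sub_cancel_right]
      exact (mem_Bf.1 hb).2
    · simp only [add_sub_cancel_right]
      rw [← hsb, sub_add_cancel]

/-- **the minimum is positive and the minimiser unique** -/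
theorem uniqueE (hsym : Sym (zd (L := L))) (hg : Gen e N w1) (hno : NoZ K L) (hfe : ∀ s, L.X (1 - s) = L.X s)
    (hgr : ∃ A : ℝ, ∀ w, ‖L.X (1 / 2 + w)‖ ≤ Real.exp (A * (1 + ‖w‖) ^ (3 / 2 : ℝ)))
    (hexp : ¬ ∃ C A : ℝ, ∀ w : ℂ, ‖L.X (1 / 2 + w)‖ ≤ C * Real.exp (A * ‖w‖))
    (hG : ∀ ρ : Zt, (ρ : ℂ).re = 1 / 2) (hs : ∀ s, L.X s = 0 → deriv L.X s ≠ 0) :
    (∀ a : ℝ, 0 < a → 0 < GM a) ∧ ∃ A : ℝ, 0 < A ∧ ∀ a : ℝ, A ≤ a → N a = 0 := by
  have hX0 : L.X (1 / 2) ≠ 0 := by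
    have := hno 0 (by rw [abs_zero]; exact K.pos.le)
    simpa using this
  have hwin := hno.win hG
  have hnear := near_of_rate (L := L) hG hwin
  have hpos : ∀ a : ℝ, 0 < a → 0 < GM a := by
    intro a0 ha0
    refine lt_of_le_of_ne (GM_nonneg hG a0) fun h0 => hexp ?_
    obtain ⟨a1, ha1, hcen⟩ := center (DZ := zd (L := L)) hG hwin hnear
    set a := max a0 a1 with ha
    have hapos : 0 < a := lt_max_of_lt_left ha0
    have hGa : GM a = 0 := le_antisymm (by rw [h0]; exact GM_anti ha0 (le_max_left _ _)) (GM_nonneg hG a)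
    have hGD := hg.gd a hapos
    obtain ⟨k1, k2⟩ := hcen a (le_max_right _ _) _ _ _ hGD
    have k3 := k2 hsym
    obtain ⟨k4, k5⟩ := zero_case hG hapos hGa hGD
    obtain ⟨G, _, _, _, _, _, h6⟩ := convE hsym hg hno hG
    have h7 := h6 L.X Xd hfe hgr (fun s => Iff.rfl) hs
    have hEz : ∀ s, EE e a s = 0 ↔ L.X s = 0 := by
      intro s
      constructor
      · intro h
        obtain ⟨ρ, hρ⟩ := k5 (s - 1 / 2) h
        have : s = ρ := sub_left_injective hρ
        rw [this]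
        exact ρ.2
      · intro h
        exact k4 ⟨s, h⟩
    obtain ⟨B, hB⟩ := TT_growth hapos hGD.mem.1.1
    have h8 := h6 (EE e a) (structureE hsym hg hapos).1 (fun s => by
      unfold EE
      have e1 : 1 - s - 1 / 2 = -(s - 1 / 2) := by ring
      rw [e1, k3]) ⟨B, fun w => by
        unfold EE
        rw [add_sub_cancel_left]
        exact hB w⟩ hEz (fun s h => ((structureE hsym hg hapos).2.2.2.2.1 s h).2)
    have hE0 : EE e a (1 / 2) ≠ 0 := fun h => hX0 ((hEz _).1 h)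
    have h9 : ∀ s, L.X s = L.X (1 / 2) / EE e a (1 / 2) * EE e a s := by
      intro s
      have h10 := h7 s
      have h11 := h8 s
      rw [← h11] at h10
      rw [div_eq_div_iff hX0 hE0] at h10
      field_simp
      linear_combination h10
    set c : ℝ := 2 * a * N2 (e a) with hc
    have hc0 : 0 ≤ c := by have := N2_nonneg (e a); positivity
    refine ⟨‖L.X (1 / 2) / EE e a (1 / 2)‖ * Real.sqrt c, a, fun w => ?_⟩
    rw [h9, norm_mul, mul_assoc]
    refine mul_le_mul_of_nonneg_left ?_ (norm_nonneg _)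
    unfold EE
    rw [add_sub_cancel_left]
    have h1 := norm_TT_le hapos hGD.mem.1.1 w
    have h2 : ‖TT (e a) w‖ ^ 2 ≤ (Real.sqrt c * Real.exp (a * ‖w‖)) ^ 2 := by
      rw [mul_pow, Real.sq_sqrt hc0, ← Real.exp_nat_mul]
      refine h1.trans ?_
      have h3 : Real.exp (2 * a * |w.re|) ≤ Real.exp (((2 : ℕ) : ℝ) * (a * ‖w‖)) := by
        rw [Real.exp_le_exp]
        push_cast
        have := Complex.abs_re_le_norm w
        nlinarith
      calc 2 * a * Real.exp (2 * a * |w.re|) * N2 (e a) = c * Real.exp (2 * a * |w.re|) := by rw [hc]; ring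
        _ ≤ _ := mul_le_mul_of_nonneg_left h3 hc0
    exact le_of_pow_le_pow_left₀ two_ne_zero (by positivity) h2
  refine ⟨hpos, ?_⟩
  obtain ⟨a1, ha1, h⟩ := unique (DZ := zd (L := L)) hG hwin hnear
  exact ⟨a1, ha1, fun a ha => h a ha (hpos a (by linarith)).ne' _ _ _ (hg.gd a (by linarith))⟩

/-- the minimum tends to zero exactly when it is never negative -/
theorem lim_iff (h1 : L.X (1 / 2) ≠ 0) : Tendsto (fun a => GM a) atTop (𝓝 0) ↔ ∀ a : ℝ, 0 < a → 0 ≤ GM a := by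
  constructor
  · intro h a ha
    refine le_of_tendsto h ?_
    filter_upwards [eventually_ge_atTop a] with b hb
    exact GM_anti ha hb
  · intro h
    have hcc := cc_pos (L := L)
    have hm := m_one (L := L)
    obtain ⟨a0, ha0, hu⟩ := GM_upper (L := L) h1 (c := cc) (by linarith)
    have hη : Tendsto (fun a : ℝ => Real.exp (-(cc * Real.exp (2 * a / L.m)))) atTop (𝓝 0) := by
      refine Real.tendsto_exp_neg_atTop_nhds_zero.comp ?_
      refine Tendsto.const_mul_atTop hcc (Real.tendsto_exp_atTop.comp ?_)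
      exact Tendsto.atTop_div_const (by linarith) (Tendsto.const_mul_atTop (by norm_num) tendsto_id)
    refine tendsto_of_tendsto_of_tendsto_of_le_of_le' tendsto_const_nhds hη ?_ ?_
    · filter_upwards [eventually_gt_atTop 0] with a ha
      exact h a ha
    · filter_upwards [eventually_ge_atTop a0] with a ha
      exact hu a ha

end

end Pool.Agent.Y23.G.CA
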