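import Pool.Agent.Run7.h336.CA2

/-! # Ground states relative to the window -/

set_option autoImplicit false
set_option linter.unusedSectionVars false
set_option maxHeartbeats 2000000

open Complex Filter Topology Set MeasureTheory
open scoped ComplexConjugate

namespace Pool.Agent.Y23.G.CA

variable [K : Win] [DZ : ZD] [EC : ZC]

/-- the bottom of the Weil form -/
noncomputable def GM (a : ℝ) : ℝ := sInf {r : ℝ | ∃ f : ℝ → ℂ, Hd a f ∧ NH f = 1 ∧ QQ f = r}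

/-- ground states -/
def KK (a : ℝ) (f : ℝ → ℂ) : Prop := Hd a f ∧ bq (GM a) f = 0

/-- elements of mass one -/
lemma exists_elem {a : ℝ} (ha : 0 < a) : ∃ f : ℝ → ℂ, Hd a f ∧ NH f = 1 := by
  obtain ⟨f, hf, hN⟩ := Pool.Agent.Y23.G.exists_elem ha
  have h0 : 0 < NH f := by
    refine lt_of_le_of_ne (NH_nonneg f) fun h => ?_
    have := Pool.Agent.Y23.G.N2_zero_of_TT hf.1 (TT_zero_of_NH hf.1 h.symm)
    rw [this] at hN
    norm_num at hN
  refine ⟨fun x => ((1 / Real.sqrt (NH f) : ℝ) : ℂ) * f x, hf.smul _, ?_⟩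
  rw [NH_smul, Complex.norm_real, Real.norm_eq_abs, sq_abs, div_pow, Real.sq_sqrt h0.le, one_pow]
  exact one_div_mul_cancel h0.ne'

lemma bq_smul (μ : ℝ) (f : ℝ → ℂ) (c : ℂ) : bq μ (fun x => c * f x) = ‖c‖ ^ 2 * bq μ f := by
  unfold bq
  rw [QQ_smul, NH_smul]; ring

lemma NH_zero_of_TT {f : ℝ → ℂ} (h : ∀ w, TT f w = 0) : NH f = 0 := by
  unfold NH
  simp only [h, norm_zero, ne_eq, OfNat.ofNat_ne_zero, not_false_eq_true, zero_pow, integral_zero]

lemma GM_bdd {a : ℝ} (ha : 0 < a) : BddBelow {r : ℝ | ∃ f : ℝ → ℂ, Hd a f ∧ NH f = 1 ∧ QQ f = r} := by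
  obtain ⟨C1, C2, hC1, hC2, h⟩ := coerH ha
  refine ⟨-C2 / C1, ?_⟩
  rintro r ⟨f, hf, hN, rfl⟩
  have h1 := h f hf
  have h2 := LL_nonneg f
  rw [hN, mul_one] at h1
  rw [div_le_iff₀ hC1]
  linarith

lemma bq_nonneg {a : ℝ} (ha : 0 < a) {f : ℝ → ℂ} (hf : Hd a f) : 0 ≤ bq (GM a) f := by
  rcases eq_or_ne (NH f) 0 with h | h
  · have h1 := TT_zero_of_NH hf.1 h
    unfold bq
    rw [QQ_zero_of_TT h1, h]
    simp
  · have hN : 0 < NH f := lt_of_le_of_ne (NH_nonneg f) (Ne.symm h)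
    set c : ℂ := ((1 / Real.sqrt (NH f) : ℝ) : ℂ) with hc
    have hc2 : ‖c‖ ^ 2 = 1 / NH f := by
      rw [hc, Complex.norm_real, Real.norm_eq_abs, sq_abs, div_pow, Real.sq_sqrt hN.le, one_pow]
    have h1 : GM a ≤ QQ (fun x => c * f x) := by
      refine csInf_le (GM_bdd ha) ⟨_, hf.smul c, ?_, rfl⟩
      rw [NH_smul, hc2]
      exact one_div_mul_cancel hN.ne'
    rw [QQ_smul, hc2, one_div, inv_mul_eq_div, le_div_iff₀ hN] at h1
    unfold bq
    linarith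

lemma KK.smul {a : ℝ} {f : ℝ → ℂ} (hf : KK a f) (c : ℂ) : KK a (fun x => c * f x) :=
  ⟨hf.1.smul c, by rw [bq_smul, hf.2, mul_zero]⟩

lemma KK.add {a : ℝ} (ha : 0 < a) {f g : ℝ → ℂ} (hf : KK a f) (hg : KK a g) : KK a (fun x => f x + g x) := by
  refine ⟨hf.1.add hg.1, ?_⟩
  have h1 := bq_line ha (GM a) hf.1 hg.1 1
  simp only [one_mul, map_one] at h1
  rw [h1, BB_ker ha (fun f hf => bq_nonneg ha hf) hf.1 hg.1 hf.2, hf.2, hg.2]
  simp

lemma KK.sub {a : ℝ} (ha : 0 < a) {f g : ℝ → ℂ} (hf : KK a f) (hg : KK a g) : KK a (fun x => f x - g x) := by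
  have := hf.add ha (hg.smul (-1))
  have e : (fun x => f x + -1 * g x) = fun x => f x - g x := by funext x; ring
  rwa [e] at this

lemma bq_add_le {a : ℝ} (ha : 0 < a) {f g : ℝ → ℂ} (hf : Hd a f) (hg : Hd a g) :
    bq (GM a) (fun x => f x + g x) ≤ 2 * bq (GM a) f + 2 * bq (GM a) g := by
  have h1 := bq_line ha (GM a) hf hg 1
  have h2 := bq_line ha (GM a) hf hg (-1)
  have h3 := bq_nonneg ha (hf.add (hg.smul (-1)))
  simp only [one_mul, map_one, norm_one, one_pow, map_neg, norm_neg, neg_mul, Complex.neg_re] at h1 h2 h3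
  linarith

lemma bq_sub_le {a : ℝ} (ha : 0 < a) {f g : ℝ → ℂ} (hf : Hd a f) (hg : Hd a g) :
    bq (GM a) (fun x => f x - g x) ≤ 2 * bq (GM a) f + 2 * bq (GM a) g := by
  have := bq_add_le ha hf (hg.smul (-1))
  have e : (fun x => f x + -1 * g x) = fun x => f x - g x := by funext x; ring
  rw [e, bq_smul] at this
  simpa using this

/-- the form is bounded by the weighted norm -/
lemma bq_le {a : ℝ} (ha : 0 < a) : ∃ C : ℝ, 0 < C ∧ ∀ f, Hd a f → bq (GM a) f ≤ C * LL f := by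
  obtain ⟨C, hC, h⟩ := dom_of_Hd ha
  refine ⟨C + |GM a|, by positivity, fun f hf => ?_⟩
  have h1 := (h f hf).2
  have h2 := QQ_abs_le (h f hf).1
  have h4 := NH_nonneg f
  have h5 : NH f ≤ LL f := NH_le_LL hf
  have h6 : -(GM a * NH f) ≤ |GM a| * LL f := by
    calc -(GM a * NH f) ≤ |GM a * NH f| := neg_le_abs _
      _ = |GM a| * NH f := by rw [abs_mul, abs_of_nonneg h4]
      _ ≤ |GM a| * LL f := mul_le_mul_of_nonneg_left h5 (abs_nonneg _)
  unfold bq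
  have := (abs_le.1 h2).2
  nlinarith

/-- limits of almost ground states -/
lemma key_seq {a : ℝ} (ha : 0 < a) {f : ℕ → ℝ → ℂ} (hf : ∀ n, Hd a (f n)) (hN : ∀ n, NH (f n) = 1)
    (hb : Tendsto (fun n => bq (GM a) (f n)) atTop (𝓝 0)) :
    ∃ (φ : ℕ → ℕ) (g : ℝ → ℂ), StrictMono φ ∧ KK a g ∧ 1 / 4 ≤ NH g ∧
      ∀ ε : ℝ, 0 < ε → ∃ N : ℕ, ∀ n, N ≤ n → LL (fun x => f (φ n) x - g x) ≤ ε := by
  obtain ⟨C, hC, hco⟩ := coer ha
  obtain ⟨C1, C2, hC1, hC2, hcoH⟩ := coerH ha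
  obtain ⟨C', hC', hbq⟩ := bq_le ha
  have hpi := Real.pi_pos
  -- boundedness
  obtain ⟨D, hD⟩ : ∃ D : ℝ, ∀ n, bq (GM a) (f n) ≤ D := by
    obtain ⟨D, hD⟩ := hb.bddAbove_range
    exact ⟨D, fun n => hD (mem_range_self n)⟩
  have hLb : ∀ n, LL (f n) ≤ C1 * (D + GM a) + C2 := by
    intro n
    have h1 := hcoH (f n) (hf n)
    have h2 := hD n
    unfold bq at h2
    rw [hN n] at h1 h2
    have : C1 * QQ (f n) ≤ C1 * (D + GM a) := by
      refine mul_le_mul_of_nonneg_left ?_ hC1.le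
      linarith
    linarith
  obtain ⟨φ, hφ, hcau⟩ := compact_seq ha hf hLb
  have hbφ : Tendsto (fun n => bq (GM a) (f (φ n))) atTop (𝓝 0) := hb.comp hφ.tendsto_atTop
  have hLc : ∀ ε : ℝ, 0 < ε → ∃ N : ℕ, ∀ m n : ℕ, N ≤ m → N ≤ n → LL (fun x => f (φ m) x - f (φ n) x) ≤ ε := by
    intro ε hε
    set K' := 4 * Real.pi * (4 + |GM a| * (2 * Real.pi)) + C with hK
    have hK0 : 0 < K' := by positivity
    obtain ⟨N1, hN1⟩ := hcau (ε / K') (by positivity)
    have h2 := (Metric.tendsto_atTop.1 hbφ) (ε / K') (by positivity)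
    obtain ⟨N3, hN2'⟩ := h2
    refine ⟨max N1 N3, fun m n hm hn => ?_⟩
    have h3 := hN1 m n (le_of_max_le_left hm) (le_of_max_le_left hn)
    have h4 := hN2' m (le_of_max_le_right hm)
    have h5 := hN2' n (le_of_max_le_right hn)
    rw [Real.dist_eq, sub_zero] at h4 h5
    have h6 := (abs_lt.1 h4).2
    have h7 := (abs_lt.1 h5).2
    have h8 := hco _ ((hf (φ m)).sub (hf (φ n)))
    have h9 := bq_sub_le ha (hf (φ m)) (hf (φ n))
    have h10 := NH_nonneg (fun x => f (φ m) x - f (φ n) x)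
    have h10' := NH_le_N2 ((hf (φ m)).sub (hf (φ n))).1
    have h11 : QQ (fun x => f (φ m) x - f (φ n) x) ≤ (4 + |GM a| * (2 * Real.pi)) * (ε / K') := by
      have : QQ (fun x => f (φ m) x - f (φ n) x) = bq (GM a) (fun x => f (φ m) x - f (φ n) x) +
          GM a * NH (fun x => f (φ m) x - f (φ n) x) := by unfold bq; ring
      rw [this]
      have h12 : GM a * NH (fun x => f (φ m) x - f (φ n) x) ≤ |GM a| * (2 * Real.pi * (ε / K')) := by
        calc _ ≤ |GM a| * NH (fun x => f (φ m) x - f (φ n) x) := mul_le_mul_of_nonneg_right (le_abs_self _) h10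
          _ ≤ _ := mul_le_mul_of_nonneg_left (h10'.trans (mul_le_mul_of_nonneg_left h3 (by positivity))) (abs_nonneg _)
      nlinarith
    calc LL (fun x => f (φ m) x - f (φ n) x) ≤ 4 * Real.pi * ((4 + |GM a| * (2 * Real.pi)) * (ε / K')) + C * (ε / K') := by
          refine h8.trans (add_le_add (mul_le_mul_of_nonneg_left h11 (by positivity)) (mul_le_mul_of_nonneg_left h3 hC.le))
      _ = K' * (ε / K') := by rw [hK]; ring
      _ = ε := mul_div_cancel₀ _ hK0.ne'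
  obtain ⟨g, hg, hlim⟩ := complete_seq ha (fun n => hf (φ n)) hLc
  refine ⟨φ, g, hφ, ⟨hg, ?_⟩, ?_, hlim⟩
  · -- vanishing of the form
    refine le_antisymm (le_of_forall_pos_le_add fun ε hε => ?_) (bq_nonneg ha hg)
    obtain ⟨N1, hN1⟩ := hlim (ε / (4 * C')) (by positivity)
    obtain ⟨N3, hN2'⟩ := (Metric.tendsto_atTop.1 hbφ) (ε / 4) (by positivity)
    have h1 := hN1 (max N1 N3) (le_max_left _ _)
    have h2 := hN2' (max N1 N3) (le_max_right _ _)
    set n := max N1 N3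
    rw [Real.dist_eq, sub_zero] at h2
    have h3 := (abs_lt.1 h2).2
    have h4 := bq_sub_le ha (hf (φ n)) ((hf (φ n)).sub hg)
    have e : (fun x => f (φ n) x - (f (φ n) x - g x)) = g := by funext x; ring
    rw [e] at h4
    have h5 := hbq _ ((hf (φ n)).sub hg)
    have h6 : C' * LL (fun x => f (φ n) x - g x) ≤ C' * (ε / (4 * C')) := mul_le_mul_of_nonneg_left h1 hC'.le
    have h7 : C' * (ε / (4 * C')) = ε / 4 := by field_simp
    linarith
  · obtain ⟨N1, hN1⟩ := hlim (1 / 100) (by norm_num)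
    have h1 := hN1 N1 le_rfl
    have h2 := NH_add_le hg.1 ((hf (φ N1)).sub hg).1
    have e : (fun x => g x + (f (φ N1) x - g x)) = f (φ N1) := by funext x; ring
    rw [e, hN] at h2
    have h3 := NH_le_LL ((hf (φ N1)).sub hg)
    have h4 := NH_nonneg (fun x => f (φ N1) x - g x)
    have h5 := Real.pi_gt_three
    nlinarith

/-- ground states exist -/
theorem exists_ground {a : ℝ} (ha : 0 < a) : ∃ g : ℝ → ℂ, KK a g ∧ 0 < NH g := by
  have hne : {r : ℝ | ∃ f : ℝ → ℂ, Hd a f ∧ NH f = 1 ∧ QQ f = r}.Nonempty := by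
    obtain ⟨f, hf, hN⟩ := exists_elem ha
    exact ⟨_, f, hf, hN, rfl⟩
  have h1 : ∀ n : ℕ, ∃ f : ℝ → ℂ, Hd a f ∧ NH f = 1 ∧ QQ f < GM a + 1 / ((n : ℝ) + 1) := by
    intro n
    obtain ⟨r, ⟨f, hf, hN, rfl⟩, hr⟩ := exists_lt_of_csInf_lt hne (show GM a < GM a + 1 / ((n : ℝ) + 1) by
      have : (0 : ℝ) < 1 / ((n : ℝ) + 1) := by positivity
      linarith)
    exact ⟨f, hf, hN, hr⟩
  choose f hf hN hQ using h1
  have hb : Tendsto (fun n => bq (GM a) (f n)) atTop (𝓝 0) := by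
    refine squeeze_zero (fun n => bq_nonneg ha (hf n)) (fun n => ?_) tendsto_one_div_add_atTop_nhds_zero_nat
    unfold bq
    rw [hN n]
    linarith [hQ n]
  obtain ⟨φ, g, _, hg, hg2, _⟩ := key_seq ha hf hN hb
  exact ⟨g, hg, by linarith⟩

end Pool.Agent.Y23.G.CA
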