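import Pool.Agent.Run7.h336.CA5

set_option autoImplicit false
set_option linter.unusedSectionVars false
set_option maxHeartbeats 2000000

open Complex Filter Topology Set MeasureTheory
open scoped ComplexConjugate

namespace Pool.Agent.Y23.G.CA

variable [K : Win] [DZ : ZD] [EC : ZC]

lemma chain_skew {a : ℝ} (ha : 0 < a) {e : ℝ → ℂ} (he : KK a e) {w0 : ℂ} (hw0 : w0.re = 0) {V : ℕ → ℝ → ℂ}
    (h : Chain a e w0 V) (m n : ℕ) : BB (GM a) (V n) (V (m + 1)) = -BB (GM a) (V (n + 1)) (V m) := by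
  have hpos : ∀ f, Hd a f → 0 ≤ bq (GM a) f := fun f hf => bq_nonneg ha hf
  have h1 : ∀ n, Hd a (fun x => V n x + (-(TT (V n) w0 / TT e w0)) * e x) := fun n => (h.mem n).add (he.1.smul _)
  have h2 : ∀ n w, TT (fun x => V n x + (-(TT (V n) w0 / TT e w0)) * e x) w = (w - w0) * TT (V (n + 1)) w := by
    intro n w
    rw [TT_add (h.mem n).1 (he.1.smul _).1, TT_smul, h.step]
    ring
  have h3 := BB_skew (GM a) hw0 (h.mem (n + 1)).1 (h.mem (m + 1)).1 (h1 n).1 (h1 m).1 (h2 n) (h2 m)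
  rw [BB_add_left ha _ (h.mem n) (he.1.smul _) (h.mem (m + 1)), BB_smul_left,
    BB_ker ha hpos he.1 (h.mem (m + 1)) he.2, mul_zero, add_zero,
    BB_add_right ha _ (h.mem m) (he.1.smul _) (h.mem (n + 1)), BB_smul_right, BB_conj _ e,
    BB_ker ha hpos he.1 (h.mem (n + 1)) he.2, map_zero, mul_zero, add_zero] at h3
  exact h3

lemma chain_conv {a : ℝ} (ha : 0 < a) {e : ℝ → ℂ} (he : KK a e) {w0 : ℂ} (hw0 : w0.re = 0) {V : ℕ → ℝ → ℂ}
    (h : Chain a e w0 V) (n : ℕ) : bq (GM a) (V (n + 1)) ^ 2 ≤ bq (GM a) (V n) * bq (GM a) (V (n + 2)) := by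
  have hpos : ∀ f, Hd a f → 0 ≤ bq (GM a) f := fun f hf => bq_nonneg ha hf
  have h1 := chain_skew ha he hw0 h (n + 1) n
  have h2 := BB_cs ha hpos (h.mem n) (h.mem (n + 1 + 1))
  rw [h1, norm_neg, BB_self ha _ (h.mem (n + 1)), Complex.norm_real, Real.norm_eq_abs, sq_abs] at h2
  exact h2

/-- the spectral gap inequality -/
theorem gap {a : ℝ} (ha : 0 < a) {e : ℝ → ℂ} (he : KK a e) {w0 : ℂ} (hw0 : w0.re = 0) {δ : ℝ} (hδ : 0 < δ)
    (hE : ∀ w, ‖w - w0‖ < δ → TT e w ≠ 0) {W U : ℝ → ℂ} (hW : Hd a W) (hU : Hd a U)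
    (hUW : ∀ w, TT U w = (w - w0) * TT W w) : δ ^ 2 * bq (GM a) W ≤ 16 * bq (GM a) U := by
  have hE0 : TT e w0 ≠ 0 := hE w0 (by simpa using hδ)
  obtain ⟨V, hV, hV0⟩ := exists_chain ha he.1 hE0 hU
  set r := δ / 2 with hr
  have hr0 : 0 < r := by positivity
  have hEr : ∀ w, ‖w - w0‖ ≤ r → TT e w ≠ 0 := fun w hw => hE w (by linarith)
  obtain ⟨M0, hM0⟩ := (isCompact_closedBall w0 r).exists_bound_of_continuousOn
    (f := fun w => TT U w / TT e w) (by
      intro z hz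
      rw [mem_closedBall_iff_norm] at hz
      exact ((differentiable_TT hU.1 z).div (differentiable_TT he.1.1 z) (hEr z hz)).continuousAt.continuousWithinAt)
  have hM00 : 0 ≤ M0 := (norm_nonneg _).trans (hM0 w0 (Metric.mem_closedBall_self hr0.le))
  have hM1 : ∀ w, ‖w - w0‖ ≤ r → ‖TT (V 0) w‖ ≤ M0 * ‖TT e w‖ := by
    intro w hw
    rw [hV0]
    have h1 := hM0 w (by rw [mem_closedBall_iff_norm]; exact hw)
    rwa [norm_div, div_le_iff₀ (norm_pos_iff.2 (hEr w hw))] at h1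
  obtain ⟨C, hC, hbq⟩ := bq_le ha
  have hLV : ∀ n, LL (V n) ≤ (4 / r ^ 2) ^ n * (2 * LL U + 2 * M0 ^ 2 * LL e) := by
    intro n
    have hg := (hV.growth he.1 hr0 hM00 hEr hM1 n).2
    have hi : Integrable (fun v : ℝ => (4 / r ^ 2) ^ n * (2 * (Lg v * ‖TT U (v * I)‖ ^ 2) + 2 * M0 ^ 2 * (Lg v * ‖TT e (v * I)‖ ^ 2))) :=
      ((hU.2.const_mul 2).add (he.1.2.const_mul (2 * M0 ^ 2))).const_mul _
    have h1 : LL (V n) ≤ ∫ v : ℝ, (4 / r ^ 2) ^ n * (2 * (Lg v * ‖TT U (v * I)‖ ^ 2) + 2 * M0 ^ 2 * (Lg v * ‖TT e (v * I)‖ ^ 2)) := by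
      refine integral_mono (hV.mem n).2 hi fun v => ?_
      simp only
      have h2 := hg (v * I)
      rw [hV0] at h2
      have h3 := pow_le_pow_left₀ (norm_nonneg _) h2 2
      have h4 : (2 / r) ^ n * (2 / r) ^ n = (4 / r ^ 2) ^ n := by
        rw [← mul_pow]; congr 1; ring
      have h5 : ((2 / r) ^ n * (‖TT U (v * I)‖ + M0 * ‖TT e (v * I)‖)) ^ 2 ≤
          (4 / r ^ 2) ^ n * (2 * ‖TT U (v * I)‖ ^ 2 + 2 * M0 ^ 2 * ‖TT e (v * I)‖ ^ 2) := by
        rw [mul_pow, sq ((2 / r) ^ n), h4]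
        refine mul_le_mul_of_nonneg_left ?_ (by positivity)
        nlinarith [sq_nonneg (‖TT U (v * I)‖ - M0 * ‖TT e (v * I)‖)]
      have h6 := mul_le_mul_of_nonneg_left (h3.trans h5) (Lg_pos v).le
      calc _ ≤ _ := h6
        _ = _ := by ring
    refine h1.trans (le_of_eq ?_)
    rw [integral_const_mul, integral_add (hU.2.const_mul 2) (he.1.2.const_mul _), integral_const_mul, integral_const_mul]
    rfl
  have hmain := logconv (b := fun n => bq (GM a) (V n)) (D := C * (2 * LL U + 2 * M0 ^ 2 * LL e)) (q := 4 / r ^ 2)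
    (fun n => bq_nonneg ha (hV.mem n)) (by positivity) (fun n => chain_conv ha he hw0 hV n) (fun n => by
      refine (hbq _ (hV.mem n)).trans ?_
      have := mul_le_mul_of_nonneg_left (hLV n) hC.le
      calc _ ≤ _ := this
        _ = _ := by ring)
  simp only [hV0] at hmain
  -- the first term is W
  have hT : ∀ w, TT (V 1) w = TT W w := by
    have hU0 : TT U w0 = 0 := by rw [hUW, sub_self, zero_mul]
    have h1 : ∀ w, (fun w => TT (V 1) w - TT W w) w * (w - w0) = 0 := by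
      intro w
      have h2 := hV.step 0 w
      rw [hV0, hU0, zero_div, zero_mul, sub_zero, hUW] at h2
      simp only
      rw [zero_add] at h2
      linear_combination h2
    intro w
    have h2 := entire_mul_zero (r := fun w => TT (V 1) w - TT W w) (E := fun w => w - w0)
      ((differentiable_TT (hV.mem 1).1).sub (differentiable_TT hW.1)) (by fun_prop) (w1 := w0 + 1) (by simp) h1 w
    exact sub_eq_zero.1 h2
  have hbW : bq (GM a) (V 1) = bq (GM a) W := by
    refine bq_congr _ fun w => ?_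
    unfold GG
    rw [hT, hT]
  rw [hbW, div_mul_eq_mul_div, le_div_iff₀ (by positivity)] at hmain
  have : r ^ 2 = δ ^ 2 / 4 := by rw [hr]; ring
  rw [this] at hmain
  linarith

end Pool.Agent.Y23.G.CA
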